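import Pool.Agent.Helper31.SB.Complete
import Pool.Agent.Helper31.Conv.Final
import Pool.Agent.Helper31.Conv.Bound

/-!
# Machines with reading heads as machines with blocks: the lengths
-/

namespace Pool.Agent.Helper31.SB

open Pool.Agent.Helper65.LinSpace Pool.Agent.Helper78.Mpc Pool.Agent.Helper28.Ram Finset
open Pool.Agent.Helper92.RE (LD)
open Pool.Agent.Helper65.OH (letW)
open Pool.Agent.Helper65.BR (bvalN lwN BM Reader)
open Pool.Agent.Helper81.RP (wd wf num_wd wd_num hd tl ls_hd ls_tl hd_eq tl_eq ls_pair linComp_wf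
  lett lt01_of wd_inj wd_one head_wd length_wd length_wd_le)
open Pool.Agent.Helper31.Conv (bits_wd wd_pred lt01_not eq01_not eq01_self bits_length_le
  log_add_le ls_log2)
open Pool.Agent.Helper31.TMS (bval_bits)

theorem log_lt_of {x k : ℕ} (h : x < 2 ^ (k + 1)) : Nat.log 2 x ≤ k := by
  rcases Nat.eq_zero_or_pos x with rfl | h0
  · simp
  · exact Nat.lt_succ_iff.1 (Nat.log_lt_of_lt_pow h0.ne' h)

theorem lt_two_log (x : ℕ) : x < 2 ^ (Nat.log 2 x + 1) := Nat.lt_pow_succ_log_self (by norm_num) x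

theorem log_pair (x y : ℕ) : Nat.log 2 (Nat.pair x y) ≤ 2 * (Nat.log 2 x + Nat.log 2 y) + 1 := by
  refine log_lt_of ?_
  have h1 : x < 2 ^ (Nat.log 2 x + Nat.log 2 y + 1) :=
    (lt_two_log x).trans_le (Nat.pow_le_pow_right (by norm_num) (by omega))
  have h2 : y < 2 ^ (Nat.log 2 x + Nat.log 2 y + 1) :=
    (lt_two_log y).trans_le (Nat.pow_le_pow_right (by norm_num) (by omega))
  have h3 : max x y + 1 ≤ 2 ^ (Nat.log 2 x + Nat.log 2 y + 1) := by
    rcases le_total x y with h | h
    · rw [max_eq_right h]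
      omega
    · rw [max_eq_left h]
      omega
  calc Nat.pair x y < (max x y + 1) ^ 2 := Nat.pair_lt_max_add_one_sq _ _
    _ ≤ (2 ^ (Nat.log 2 x + Nat.log 2 y + 1)) ^ 2 := Nat.pow_le_pow_left h3 2
    _ = 2 ^ (2 * (Nat.log 2 x + Nat.log 2 y) + 1 + 1) := by
      rw [← pow_mul]
      congr 1
      omega

theorem bits_log (x : ℕ) : x.bits.length ≤ Nat.log 2 x + 1 := bits_length_le (lt_two_log x)

/-- The length of the states. -/
theorem log_stn {P f l q T1 T2 S s p t1 : ℕ} (hf : f ≤ 3) (hl : l ≤ 2) (hq : Nat.log 2 q ≤ s)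
    (hP : Nat.log 2 P ≤ p) (h1 : Nat.log 2 T1 ≤ t1 * S) (h2 : Nat.log 2 T2 ≤ t1 * S) :
    Nat.log 2 (stn P f l q T1 T2) ≤ 2 * p + 8 * s + 16 * (t1 * S) + 60 := by
  have hf' : Nat.log 2 f ≤ 1 := log_lt_of (by norm_num; omega)
  have hl' : Nat.log 2 l ≤ 1 := log_lt_of (by norm_num; omega)
  have e1 := log_pair f l
  have e2 := log_pair (Nat.pair f l) q
  have e3 := log_pair T1 T2
  have e4 := log_pair (Nat.pair (Nat.pair f l) q) (Nat.pair T1 T2)
  have e5 := log_pair P (Nat.pair (Nat.pair (Nat.pair f l) q) (Nat.pair T1 T2))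
  have e6 : Nat.log 2 (mk P f l q T1 T2) ≤
      Nat.log 2 (Nat.pair P (Nat.pair (Nat.pair (Nat.pair f l) q) (Nat.pair T1 T2))) + 1 := by
    have := log_add_le 1 (Nat.pair P (Nat.pair (Nat.pair (Nat.pair f l) q) (Nat.pair T1 T2)))
    have h3 : Nat.log 2 1 = 0 := by simp
    unfold mk
    omega
  have e7 : Nat.log 2 (2 * mk P f l q T1 T2) = Nat.log 2 (mk P f l q T1 T2) + 1 := by
    rw [mul_comm, Nat.log_mul_base (by norm_num) (mk_pos _ _ _ _ _ _).ne']
  have e8 : Nat.log 2 (accN q) ≤ 0 := log_lt_of (by have := accN_le q; norm_num; omega)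
  have e9 := log_add_le (accN q) (2 * mk P f l q T1 T2)
  unfold stn
  omega

theorem log_P {S n a b : ℕ} (ha : a ≤ S) (hb : b ≤ S) :
    Nat.log 2 (Nat.pair (Nat.pair (2 ^ S - 2) n) (Nat.pair a b)) ≤ 12 * S + 4 * Nat.log 2 n + 5 := by
  have e1 := log_pair (2 ^ S - 2) n
  have e2 := log_pair a b
  have e3 := log_pair (Nat.pair (2 ^ S - 2) n) (Nat.pair a b)
  have e4 : Nat.log 2 (2 ^ S - 2) ≤ S := log_lt_of (by
    have : 0 < 2 ^ S := by positivity
    rw [pow_succ]
    omega)
  have e5 : Nat.log 2 a ≤ S := (Nat.log_le_self 2 a).trans ha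
  have e6 : Nat.log 2 b ≤ S := (Nat.log_le_self 2 b).trans hb
  omega

/-- The parameter. -/
def pP (S n a b : ℕ) : ℕ := Nat.pair (Nat.pair (2 ^ S - 2) n) (Nat.pair (a + 1) b)

section

variable {S n a b : ℕ}

theorem pR_pP (hS : 0 < S) : pR (pP S n a b) = 2 ^ S := by
  unfold pR pP
  simp only [Nat.unpair_pair]
  have : 2 ≤ 2 ^ S := by
    calc 2 = 2 ^ 1 := by norm_num
      _ ≤ 2 ^ S := Nat.pow_le_pow_right (by norm_num) hS
  omega

theorem pn_pP : pn (pP S n a b) = n := by
  unfold pn pP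
  simp only [Nat.unpair_pair]

theorem log_pR (hS : 0 < S) : Nat.log 2 (pR (pP S n a b)) = S := by
  rw [pR_pP hS, Nat.log_pow (by norm_num)]

theorem pk_pP (hS : a + 1 ≤ S) : pk (pP S n a b) = a + 1 := by
  unfold pk
  rw [log_pR (by omega)]
  unfold pP
  simp only [Nat.unpair_pair]
  exact min_eq_left hS

theorem pb_pP (hS : a + 1 ≤ S) (hb : (a + 1) * b ≤ S) : pb (pP S n a b) = b := by
  unfold pb
  rw [pk_pP hS, log_pR (by omega)]
  unfold pP
  simp only [Nat.unpair_pair]
  unfold le01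
  rw [if_pos hb, ifz_ne one_ne_zero]

end

variable {J : SC} {K : ℕ} {A : Reader K} {x w y : List Bool} {P r s b a t : ℕ}

/-- The contents of the blocks. -/
theorem len_mem {M : List Bool → List Bool} (hM : Mem J A x y P t M) (u : List Bool) :
    (M u).length ≤ pk P * pb P := by
  by_cases h : ∃ X, u = nm X
  · obtain ⟨X, rfl⟩ := h
    rw [hM.me, length_wd (Nat.succ_pos _)]
    have h1 := tb_lt' J A x y P t X
    have h2 : pA P ^ pb P = 2 ^ (pk P * pb P) := by
      unfold pA
      rw [← pow_mul]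
    refine log_lt_of ?_
    rw [pow_succ, ← h2]
    omega
  · rw [hM.mo u h]
    exact Nat.zero_le _

/-- The lengths. -/
theorem fits (hC : Cd J A) (hF : A.Fits x y r s b a) {p : List Bool} {S cD : ℕ}
    (hP : Prm (num p) w.length s b a) (hR : pR (num p) = 2 ^ S)
    (hD : ∀ n u, Nat.log 2 (J.D.pos n u) ≤ cD * (Nat.log 2 n + Nat.log 2 u + 1)) {τ : ℕ}
    (hs : Seen J A x w y p τ r) : (bm J).Fits w y p τ
      (2 * p.length + (8 + 32 * K) * S + (cD + 1) * (Nat.log 2 w.length + S + 1) + 61)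
      (2 * b + 4) (pk (num p) * pb (num p)) := by
  intro τ' hτ
  obtain ⟨t, ht, f, l, T1, T2, h⟩ := hs τ' hτ
  have hlR : Nat.log 2 (pR (num p)) = S := by rw [hR, Nat.log_pow (by norm_num)]
  have hsS : s ≤ S := by
    have := hP.hs
    omega
  have hfit := hF t ht
  have hpos := stn_pos' (num p) f l (num (A.conf x y t).1) T1 T2
  have hTT : ∀ T, T < pR (num p) ^ (2 * J.K) → Nat.log 2 T ≤ 2 * K * S := by
    intro T hT
    refine log_lt_of (hT.trans_le ?_)
    rw [hR, ← pow_mul, hC.hK]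
    exact Nat.pow_le_pow_right (by norm_num) (by rw [mul_comm S]; omega)
  have hq : Nat.log 2 (num (A.conf x y t).1) ≤ S := by
    rw [log_num]
    exact hfit.1.trans hsS
  have hja : Nat.log 2 (ja J (num p) (num (A.conf x y t).1)) ≤ S := by
    unfold ja
    rw [hC.gA, if_pos (hfit.2.1.trans hP.hs), bvalN_num]
    have h1 := bval_lt (A.addr (A.conf x y t).1)
    refine log_lt_of (h1.trans_le ?_)
    exact Nat.pow_le_pow_right (by norm_num) (by have := hfit.2.1; omega)
  refine ⟨?_, ?_, ?_, fun u _ => len_mem h.me u⟩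
  · rw [h.st, length_wd hpos]
    have h1 := log_stn (S := S) (t1 := 2 * K) h.ph.f3 h.ph.l2 hq (le_of_eq (log_num p))
      (hTT T1 h.sl.l1) (hTT T2 h.sl.l2)
    have h2 : 16 * (2 * K * S) + 8 * S = (8 + 32 * K) * S := by ring
    have h3 : 0 ≤ (cD + 1) * (Nat.log 2 w.length + S + 1) := Nat.zero_le _
    omega
  · rw [h.st, bm_addr' J hpos]
    refine (bits_log _).trans ?_
    have h1 : Nat.log 2 (adN J (stn (num p) f l (num (A.conf x y t).1) T1 T2)) ≤
        (cD + 1) * (Nat.log 2 w.length + S + 1) := by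
      have h2 : Nat.log 2 w.length + S ≤ (cD + 1) * (Nat.log 2 w.length + S + 1) := by
        have : 1 * (Nat.log 2 w.length + S + 1) ≤ (cD + 1) * (Nat.log 2 w.length + S + 1) :=
          Nat.mul_le_mul_right _ (by omega)
        omega
      have h3 := h.ph.f3
      rcases (show f = 0 ∨ f = 1 ∨ f = 2 ∨ f = 3 by omega) with rfl | rfl | rfl | rfl
      · rw [adN_0, ← hP.hn]
        omega
      · rw [adN_1, ← hP.hn]
        have := Nat.log_mono_right (b := 2) (show w.length - 1 ≤ w.length by omega)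
        omega
      · rw [adN_2, ← hP.hn]
        refine (hD _ _).trans ?_
        refine (Nat.mul_le_mul_left cD (show _ ≤ Nat.log 2 w.length + S + 1 by omega)).trans ?_
        exact Nat.mul_le_mul_right _ (by omega)
      · rw [adN_3]
        omega
    have h2 : 0 ≤ (8 + 32 * K) * S := Nat.zero_le _
    omega
  · by_cases hf : f ≤ 2
    · rw [get_2 J hf h.st]
      exact Nat.zero_le _
    · obtain rfl : f = 3 := by
        have := h.ph.f3
        omega
      rcases (fm_le (ld J (num p) (num (A.conf x y t).1) T1) J.K).lt_or_eq with hm | hm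
      · have h1 := ((get_3 J h).1 hm).2.1
        rw [h1]
        have hm' : ms J (num p) (num (A.conf x y t).1) T1 < K := hm.trans_eq hC.hK
        have h2 := bn_fit hC hF hP ht ⟨_, hm'⟩
        unfold nm
        rw [length_wd (by omega)]
        refine log_lt_of ?_
        simp only at h2
        have h3 : 2 ^ (2 * b + 4 + 1) = 8 * 2 ^ (2 * b + 2) := by
          rw [show 2 * b + 4 + 1 = 2 * b + 2 + 3 by omega, pow_add]
          ring
        have h4 : 4 ≤ 2 ^ (2 * b + 2) := by
          calc 4 = 2 ^ 2 := by norm_num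
            _ ≤ _ := Nat.pow_le_pow_right (by norm_num) (by omega)
        omega
      · rw [(get_3 J h).2 hm]
        exact Nat.zero_le _

end Pool.Agent.Helper31.SB
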