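import Mathlib

/-!
# The number of loads of blocks
-/

namespace Pool.Agent.Helper31.SB

open Finset

theorem dm {β z b o : ℕ} (ho : o < β) (h : z = β * b + o) : z / β = b ∧ z % β = o := by
  subst h
  rw [Nat.mul_add_div (by omega), Nat.div_eq_of_lt ho, Nat.mul_add_mod, Nat.mod_eq_of_lt ho]
  exact ⟨rfl, rfl⟩

/-- The next number. -/
theorem up {β z : ℕ} (hβ : 0 < β) :
    ((z + 1) / β = z / β ∧ (z + 1) % β = z % β + 1) ∨
    ((z + 1) / β = z / β + 1 ∧ (z + 1) % β = 0 ∧ z % β + 1 = β) := by
  have h1 := Nat.div_add_mod z β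
  have h2 := Nat.mod_lt z hβ
  by_cases h : z % β + 1 < β
  · exact Or.inl (dm h (by omega))
  · have h3 : z % β + 1 = β := by omega
    have h4 := dm (β := β) (z := z + 1) (b := z / β + 1) (o := 0) hβ (by rw [mul_add]; omega)
    exact Or.inr ⟨h4.1, h4.2, h3⟩

/-- At most one block is loaded for `β` moves, apart from two blocks for every jump. -/
theorem pot {β r : ℕ} (hβ : 0 < β) {nu z M Jc rd : ℕ → ℕ} {sb : ℕ → ℕ → ℕ}
    (hs : ∀ t, ∀ p < 2, sb (t + 1) p =
      if p = z t / β % 2 then Nat.pair (nu t) (z t / β) else sb t p)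
    (h0 : rd 0 ≤ 1)
    (hr : ∀ t, rd (t + 1) = rd t +
      if sb (t + 1) (z (t + 1) / β % 2) = Nat.pair (nu (t + 1)) (z (t + 1) / β) then 0 else 1)
    (hst : ∀ t < r, (nu (t + 1) = nu t ∧ z (t + 1) = z t ∧ M t ≤ M (t + 1) ∧ Jc t ≤ Jc (t + 1)) ∨
      (nu (t + 1) = nu t ∧ (z (t + 1) = z t + 1 ∨ z t = z (t + 1) + 1) ∧ M t + 1 ≤ M (t + 1) ∧
        Jc t ≤ Jc (t + 1)) ∨ (M t + 1 ≤ M (t + 1) ∧ Jc t + 1 ≤ Jc (t + 1))) :
    ∀ t ≤ r, β * rd t ≤ M t + 2 * β * (Jc t + 1) := by
  have key : ∀ t ≤ r, β * rd t + β ≤ M t + 2 * β * (Jc t + 1) ∨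
      (sb (t + 1) (1 - z t / β % 2) = Nat.pair (nu t) (z t / β + 1) ∧
        β * rd t + β ≤ M t + 2 * β * (Jc t + 1) + z t % β + 1) ∨
      (∃ b', z t / β = b' + 1 ∧ sb (t + 1) (1 - z t / β % 2) = Nat.pair (nu t) b' ∧
        β * rd t + β ≤ M t + 2 * β * (Jc t + 1) + (β - z t % β)) := by
    intro t
    induction t with
    | zero =>
      intro _
      left
      have h1 : β * rd 0 ≤ β * 1 := Nat.mul_le_mul_left _ h0
      have h2 : 2 * β * (0 + 1) ≤ 2 * β * (Jc 0 + 1) := Nat.mul_le_mul_left _ (by omega)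
      omega
    | succ t ih =>
      intro ht
      have ih' := ih (by omega)
      clear ih
      have hrt := hr t
      have hst' := hst t (by omega)
      have hb2 : z t / β % 2 < 2 := Nat.mod_lt _ (by norm_num)
      have hb2' : z (t + 1) / β % 2 < 2 := Nat.mod_lt _ (by norm_num)
      have ho := Nat.mod_lt (z t) hβ
      have ho' := Nat.mod_lt (z (t + 1)) hβ
      have hown : sb (t + 1) (z t / β % 2) = Nat.pair (nu t) (z t / β) := by
        rw [hs t _ hb2, if_pos rfl]
      have hoth : sb (t + 1 + 1) (1 - z (t + 1) / β % 2) = sb (t + 1) (1 - z (t + 1) / β % 2) := by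
        rw [hs (t + 1) _ (by omega), if_neg (by omega)]
      have hJ : Jc t ≤ Jc (t + 1) → 2 * β * (Jc t + 1) ≤ 2 * β * (Jc (t + 1) + 1) := fun h =>
        Nat.mul_le_mul_left _ (by omega)
      have hJ' : Jc t + 1 ≤ Jc (t + 1) → 2 * β * (Jc t + 1) + 2 * β ≤ 2 * β * (Jc (t + 1) + 1) :=
        fun h => by
          calc 2 * β * (Jc t + 1) + 2 * β = 2 * β * (Jc t + 1 + 1) := by ring
            _ ≤ _ := Nat.mul_le_mul_left _ (by omega)
      have hload : β * rd (t + 1) ≤ β * rd t + β := by
        rw [hrt]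
        split_ifs
        · rw [add_zero]
          omega
        · rw [mul_add, mul_one]
      -- the same block
      have same : nu (t + 1) = nu t → z (t + 1) / β = z t / β → β * rd (t + 1) = β * rd t ∧
          sb (t + 1 + 1) (1 - z (t + 1) / β % 2) = sb (t + 1) (1 - z t / β % 2) := by
        intro e1 e2
        refine ⟨?_, ?_⟩
        · rw [hrt, e1, e2, if_pos hown, add_zero]
        · rw [hoth, e2]
      -- the next block or the last block
      have other : nu (t + 1) = nu t → (z (t + 1) / β = z t / β + 1 ∨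
          z t / β = z (t + 1) / β + 1) →
          sb (t + 1 + 1) (1 - z (t + 1) / β % 2) = Nat.pair (nu t) (z t / β) ∧
          (sb (t + 1) (1 - z t / β % 2) = Nat.pair (nu t) (z (t + 1) / β) →
            β * rd (t + 1) = β * rd t) := by
        intro e1 e2
        refine ⟨?_, ?_⟩
        · rw [hoth, show 1 - z (t + 1) / β % 2 = z t / β % 2 by omega, hown]
        · intro e3
          rw [hrt, e1, show z (t + 1) / β % 2 = 1 - z t / β % 2 by omega, if_pos e3, add_zero]
      rcases hst' with ⟨e1, e2, e3, e4⟩ | ⟨e1, e2, e3, e4⟩ | ⟨e3, e4⟩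
      · have s1 := same e1 (by rw [e2])
        have j1 := hJ e4
        rw [s1.2, e1, e2]
        rcases ih' with h | ⟨h1, h2⟩ | ⟨b', h1, h2, h3⟩
        · exact Or.inl (by omega)
        · exact Or.inr (Or.inl ⟨h1, by omega⟩)
        · exact Or.inr (Or.inr ⟨b', h1, h2, by omega⟩)
      · have j1 := hJ e4
        rcases e2 with e2 | e2
        · rcases up (β := β) (z := z t) hβ with ⟨u1, u2⟩ | ⟨u1, u2, u3⟩
          · rw [← e2] at u1 u2
            have s1 := same e1 u1
            rw [s1.2, e1, u1, u2]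
            rcases ih' with h | ⟨h1, h2⟩ | ⟨b', h1, h2, h3⟩
            · exact Or.inl (by omega)
            · exact Or.inr (Or.inl ⟨h1, by omega⟩)
            · exact Or.inr (Or.inr ⟨b', h1, h2, by omega⟩)
          · rw [← e2] at u1 u2
            have s1 := other e1 (Or.inl u1)
            right
            right
            refine ⟨z t / β, u1, ?_, ?_⟩
            · rw [s1.1, e1]
            · rcases ih' with h | ⟨h1, h2⟩ | ⟨b', h1, h2, h3⟩
              · omega
              · have s2 := s1.2 (by rw [u1, h1])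
                omega
              · omega
        · rcases up (β := β) (z := z (t + 1)) hβ with ⟨u1, u2⟩ | ⟨u1, u2, u3⟩
          · rw [← e2] at u1 u2
            have s1 := same e1 u1.symm
            rw [s1.2, e1, ← u1]
            rcases ih' with h | ⟨h1, h2⟩ | ⟨b', h1, h2, h3⟩
            · exact Or.inl (by omega)
            · exact Or.inr (Or.inl ⟨h1, by omega⟩)
            · exact Or.inr (Or.inr ⟨b', h1, h2, by omega⟩)
          · rw [← e2] at u1 u2
            have s1 := other e1 (Or.inr u1)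
            right
            left
            refine ⟨?_, ?_⟩
            · rw [s1.1, e1, u1]
            · rcases ih' with h | ⟨h1, h2⟩ | ⟨b', h1, h2, h3⟩
              · omega
              · omega
              · have s2 := s1.2 (by
                  rw [h2]
                  congr 1
                  omega)
                omega
      · left
        have j1 := hJ' e4
        rcases ih' with h | ⟨h1, h2⟩ | ⟨b', h1, h2, h3⟩
        · omega
        · omega
        · omega
  intro t ht
  have ho := Nat.mod_lt (z t) hβ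
  rcases key t ht with h | ⟨h1, h2⟩ | ⟨b', h1, h2, h3⟩
  · omega
  · omega
  · omega

/-- The number of pairs of a time and a head. -/
theorem ncard_pairs {K : ℕ} (r : ℕ) (Q : ℕ → Fin K → Prop) [∀ t i, Decidable (Q t i)] :
    {z : ℕ × Fin K | z.1 < r ∧ Q z.1 z.2}.ncard =
      ∑ i : Fin K, ∑ t ∈ range r, if Q t i then 1 else 0 := by
  have h1 : {z : ℕ × Fin K | z.1 < r ∧ Q z.1 z.2} =
      ↑((range r ×ˢ (univ : Finset (Fin K))).filter fun z => Q z.1 z.2) := by
    ext z
    simp
  rw [h1, Set.ncard_coe_finset, card_filter, sum_product, sum_comm]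

end Pool.Agent.Helper31.SB
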