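import Pool.Agent.Helper31.SB.Sound
import Pool.Agent.Helper31.SB.Pot

/-!
# Machines with reading heads as machines with blocks: completeness
-/

namespace Pool.Agent.Helper31.SB

open Pool.Agent.Helper65.LinSpace Pool.Agent.Helper78.Mpc Pool.Agent.Helper28.Ram Finset
open Pool.Agent.Helper92.RE (LD)
open Pool.Agent.Helper65.OH (letW)
open Pool.Agent.Helper65.BR (bvalN lwN BM Reader)
open Pool.Agent.Helper81.RP (wd wf num_wd wd_num hd tl ls_hd ls_tl hd_eq tl_eq ls_pair linComp_wf
  lett lt01_of wd_inj wd_one head_wd)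
open Pool.Agent.Helper31.Conv (bits_wd wd_pred lt01_not eq01_not eq01_self)
open Pool.Agent.Helper31.TMS (bval_bits)

/-- The parameters are large enough. -/
structure Prm (P n s b a : ℕ) : Prop where
  hs : s ≤ Nat.log 2 (pR P)
  hb : 2 * b + 2 ≤ Nat.log 2 (pR P)
  ha : a + 1 ≤ pk P
  h0 : 0 < pb P
  hn : n = pn P

variable {J : SC} {K : ℕ} {A : Reader K} {x w y : List Bool} {P r s b a t : ℕ}

theorem bval_pos (u : List Bool) : 0 < num u := num_pos u

theorem gA_ne (hC : Cd J A) (hF : A.Fits x y r s b a) (hP : Prm P w.length s b a) (ht : t ≤ r) :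
    J.gA (pR P) (num (A.conf x y t).1) ≠ 0 := by
  rw [hC.gA, if_pos ((hF t ht).2.1.trans hP.hs)]
  exact (num_pos _).ne'

theorem us_fit (hC : Cd J A) (hF : A.Fits x y r s b a) (hP : Prm P w.length s b a) (ht : t ≤ r)
    (i : Fin K) : us J P (num (A.conf x y t).1) i = num (A.cell (A.conf x y t).1 i).1 := by
  have h1 := ((hF t ht).2.2.1 i).1
  have h2 := hP.hb
  rw [us_num hC, if_pos (by omega)]
  rfl

theorem cl_fit (hC : Cd J A) (hF : A.Fits x y r s b a) (hP : Prm P w.length s b a) (ht : t ≤ r)
    (i : Fin K) : ps J P (num (A.conf x y t).1) i ≠ 0 ∧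
      cl J P (num (A.conf x y t).1) i = (A.cell (A.conf x y t).1 i).2 := by
  have h1 := ((hF t ht).2.2.1 i).2
  have h2 := hP.hb
  have h3 : ps J P (num (A.conf x y t).1) i ≠ 0 := by
    rw [ps_num hC, if_pos (by omega)]
    exact (num_pos _).ne'
  exact ⟨h3, cl_num hC h3⟩

theorem cell_fit (hF : A.Fits x y r s b a) (ht : t ≤ r) (i : Fin K) :
    (A.cell (A.conf x y t).1 i).1.length ≤ b ∧ (A.cell (A.conf x y t).1 i).2 < 2 ^ b := by
  have h1 := (hF t ht).2.2.1 i
  exact ⟨h1.1, (bval_lt _).trans_le (Nat.pow_le_pow_right (by norm_num) h1.2)⟩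

theorem bn_fit (hC : Cd J A) (hF : A.Fits x y r s b a) (hP : Prm P w.length s b a) (ht : t ≤ r)
    (i : Fin K) : bn J P (num (A.conf x y t).1) i < 2 ^ (2 * b + 2) := by
  have h1 := cell_fit hF ht i
  have h2 := num_lt (A.cell (A.conf x y t).1 i).1
  have h3 : 2 ^ ((A.cell (A.conf x y t).1 i).1.length + 1) ≤ 2 ^ (b + 1) :=
    Nat.pow_le_pow_right (by norm_num) (by omega)
  have h4 : 2 ^ b ≤ 2 ^ (b + 1) := Nat.pow_le_pow_right (by norm_num) (by omega)
  have h5 : (A.cell (A.conf x y t).1 i).2 / pb P ≤ (A.cell (A.conf x y t).1 i).2 :=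
    Nat.div_le_self _ _
  unfold bn
  rw [us_fit hC hF hP ht, (cl_fit hC hF hP ht i).2]
  refine (Nat.pair_lt_max_add_one_sq _ _).trans_le ?_
  have h6 : max (num (A.cell (A.conf x y t).1 i).1) ((A.cell (A.conf x y t).1 i).2 / pb P) + 1 ≤
      2 ^ (b + 1) := by
    rcases le_total (num (A.cell (A.conf x y t).1 i).1)
      ((A.cell (A.conf x y t).1 i).2 / pb P) with h | h
    · rw [max_eq_right h]
      omega
    · rw [max_eq_left h]
      omega
  calc (max (num (A.cell (A.conf x y t).1 i).1) ((A.cell (A.conf x y t).1 i).2 / pb P) + 1) ^ 2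
      ≤ (2 ^ (b + 1)) ^ 2 := Nat.pow_le_pow_left h6 2
    _ = 2 ^ (2 * b + 2) := by
      rw [← pow_mul]
      congr 1
      omega

theorem hk_fit (hC : Cd J A) (hF : A.Fits x y r s b a) (hP : Prm P w.length s b a) (ht : t ≤ r) :
    ∀ i < J.K, hk J P (num (A.conf x y t).1) i ≠ 0 := by
  intro i hi
  have hi' : i < K := by
    rw [← hC.hK]
    exact hi
  have h1 := us_fit hC hF hP ht ⟨i, hi'⟩
  have h2 := cl_fit hC hF hP ht ⟨i, hi'⟩
  have h3 := bn_fit hC hF hP ht ⟨i, hi'⟩
  rw [hk_ne]
  refine ⟨?_, h2.1, h3.trans_le ?_⟩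
  · simp only at h1
    rw [h1]
    exact (num_pos _).ne'
  · exact (Nat.pow_le_pow_right (by norm_num) hP.hb).trans
      (Nat.pow_log_le_self 2 (pR_pos P).ne')

theorem vk_fit (hC : Cd J A) (hF : A.Fits x y r s b a) (hP : Prm P w.length s b a) (ht : t ≤ r)
    {T1 T2 : ℕ} (hS : Slots J A x y P t T1 T2)
    (hl : ∀ i < J.K, dig (pR P) T1 (so J P (num (A.conf x y t).1) i) =
      bn J P (num (A.conf x y t).1) i) :
    ∀ i < J.K, vk J P (num (A.conf x y t).1) T2 i ≠ 0 := by
  intro i hi
  have hi' : i < K := by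
    rw [← hC.hK]
    exact hi
  have h1 := vd_eq hC hS hP.h0 (i := ⟨i, hi'⟩) (hk_fit hC hF hP ht i hi) (hl i hi)
  have h2 := cell_fit hF ht ⟨i, hi'⟩
  rw [vk_ne]
  simp only at h1
  rw [h1]
  exact dg_fit x y hC hP.ha (fun t ht => (hF t ht).2.2.2 _ _ h2.1 h2.2) ht

theorem gN_fit (hC : Cd J A) (hF : A.Fits x y r s b a) (hP : Prm P w.length s b a)
    (ht : t + 1 ≤ r) : J.gN (pR P) (num (A.inp x y (A.conf x y t).1 (rd A x y t))) ≠ 0 := by
  have h1 : A.next (A.inp x y (A.conf x y t).1 (rd A x y t)) = (A.conf x y (t + 1)).1 := rfl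
  rw [hC.gN, h1, if_pos ((hF (t + 1) ht).1.trans hP.hs)]
  exact (num_pos _).ne'

/-! ### The loads -/

variable (J A x y P)

/-- The block in the slot `j` at the time `t`, before the loads. -/
def sb : ℕ → ℕ → ℕ
  | 0, _ => 0
  | t + 1, j => if j = so J P (num (A.conf x y t).1) (j / 2) then
      bn J P (num (A.conf x y t).1) (j / 2) else sb t j

/-- `1` if the block of the head `i` must be loaded at the time `t`. -/
def lo (t i : ℕ) : ℕ :=
  if sb J A x y P t (so J P (num (A.conf x y t).1) i) = bn J P (num (A.conf x y t).1) i then 0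
  else 1

/-- The number of loads before the time `t`. -/
def nl1 (t : ℕ) : ℕ := ∑ u ∈ range t, ∑ i ∈ range J.K, lo J A x y P u i

variable {J A x y P}

variable (J) in
/-- All configurations up to the time `τ` code configurations of the given machine up to the time `t`. -/
def Seen (A : Reader K) (x w y p : List Bool) (τ t : ℕ) : Prop :=
  ∀ τ' ≤ τ, ∃ t' ≤ t, ∃ f l T1 T2, At J A x w y ((bm J).conf w y p τ') (num p) t' f l T1 T2

theorem Seen.mono {p : List Bool} {τ t t' : ℕ} (h : Seen J A x w y p τ t) (ht : t ≤ t') :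
    Seen J A x w y p τ t' := by
  intro τ' hτ
  obtain ⟨t₀, h1, h2⟩ := h τ' hτ
  exact ⟨t₀, h1.trans ht, h2⟩

theorem Seen.succ {p : List Bool} {τ t f l T1 T2 : ℕ} (h : Seen J A x w y p τ t)
    (h1 : At J A x w y ((bm J).conf w y p (τ + 1)) (num p) t f l T1 T2) :
    Seen J A x w y p (τ + 1) t := by
  intro τ' hτ
  rcases Nat.lt_or_ge τ τ' with h2 | h2
  · obtain rfl : τ' = τ + 1 := by omega
    exact ⟨t, le_rfl, f, l, T1, T2, h1⟩
  · exact h τ' h2

theorem reads_eq (p : List Bool) (τ : ℕ) : (bm J).reads w y p τ = ((range τ).filter fun t =>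
    ((bm J).blk ((bm J).conf w y p t).1).head? = some true).card := by
  unfold BM.reads
  rw [← Set.ncard_coe_finset]
  congr 1
  ext t
  simp

theorem reads_zero (p : List Bool) : (bm J).reads w y p 0 = 0 := by
  rw [reads_eq, range_zero, filter_empty, card_empty]

theorem reads_succ (p : List Bool) (τ : ℕ) : (bm J).reads w y p (τ + 1) = (bm J).reads w y p τ +
    if ((bm J).blk ((bm J).conf w y p τ).1).head? = some true then 1 else 0 := by
  rw [reads_eq, reads_eq, range_add_one, filter_insert]
  split_ifs with h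
  · rw [card_insert_of_notMem]
    simp
  · rfl

theorem reads_none {p : List Bool} {τ : ℕ} (h : (bm J).blk ((bm J).conf w y p τ).1 = []) :
    (bm J).reads w y p (τ + 1) = (bm J).reads w y p τ := by
  rw [reads_succ, h]
  rfl

theorem so_div {q i : ℕ} : so J P q i / 2 = i := by
  unfold so
  omega

/-- The blocks of the first `k` heads are loaded. -/
theorem loads (hC : Cd J A) (hF : A.Fits x y r s b a) {p : List Bool}
    (hP : Prm (num p) w.length s b a) (ht : t ≤ r) {τ l T1 T2 : ℕ}
    (hA : At J A x w y ((bm J).conf w y p τ) (num p) t 3 l T1 T2)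
    (hd : ∀ j < 2 * J.K, dig (pR (num p)) T1 j = sb J A x y (num p) t j)
    (hr : (bm J).reads w y p τ = nl1 J A x y (num p) t) (hs : Seen J A x w y p τ t) (k : ℕ)
    (hk' : k ≤ J.K) :
    ∃ τ T1 T2, At J A x w y ((bm J).conf w y p τ) (num p) t 3 l T1 T2 ∧
      (∀ j < 2 * J.K, dig (pR (num p)) T1 j =
        if j / 2 < k ∧ j = so J (num p) (num (A.conf x y t).1) (j / 2) then
          bn J (num p) (num (A.conf x y t).1) (j / 2) else sb J A x y (num p) t j) ∧
      (bm J).reads w y p τ = nl1 J A x y (num p) t + ∑ i ∈ range k, lo J A x y (num p) t i ∧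
      Seen J A x w y p τ t := by
  induction k with
  | zero =>
    refine ⟨τ, T1, T2, hA, fun j hj => ?_, ?_, hs⟩
    · rw [if_neg (by omega)]
      exact hd j hj
    · rw [hr, range_zero, sum_empty, add_zero]
  | succ k ih =>
    obtain ⟨τ', T1', T2', h1, h2, h3, h4⟩ := ih (by omega)
    set q := num (A.conf x y t).1 with hq
    have hlow : ∀ i < k, ld J (num p) q T1' i ≠ 0 := by
      intro i hi
      rw [ld_ne, h2 _ (so_lt (by omega)), so_div, if_pos ⟨hi, rfl⟩]
    have hk2 : dig (pR (num p)) T1' (so J (num p) q k) =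
        sb J A x y (num p) t (so J (num p) q k) := by
      rw [h2 _ (so_lt (by omega)), so_div, if_neg (by omega)]
    by_cases h5 : sb J A x y (num p) t (so J (num p) q k) = bn J (num p) q k
    · refine ⟨τ', T1', T2', h1, fun j hj => ?_, ?_, h4⟩
      · rw [h2 j hj]
        by_cases h6 : j / 2 < k ∧ j = so J (num p) q (j / 2)
        · rw [if_pos h6, if_pos ⟨by omega, h6.2⟩]
        · rw [if_neg h6]
          by_cases h7 : j / 2 < k + 1 ∧ j = so J (num p) q (j / 2)
          · rw [if_pos h7]
            have h8 : j / 2 = k := by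
              have : ¬(j / 2 < k) := fun h => h6 ⟨h, h7.2⟩
              omega
            rw [h8] at h7 ⊢
            rw [← h5, ← h7.2]
          · rw [if_neg h7]
      · rw [h3, sum_range_succ]
        have h6 : lo J A x y (num p) t k = 0 := if_pos h5
        rw [h6, add_zero]
    · have hm : ms J (num p) q T1' = k := by
        refine fm_eq' (by omega) hlow ?_
        by_contra h6
        rw [← Ne, ld_ne, hk2] at h6
        exact h5 h6
      have hkk := hk_fit hC hF hP ht
      have h6 := at_load J h1 hkk (by rw [← hq, hm]; omega)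
      rw [← hq, hm] at h6
      have h7 := ((get_3 J h1).1 (by rw [← hq, hm]; omega)).1
      refine ⟨τ' + 1, _, _, h6, fun j hj => ?_, ?_, h4.succ h6⟩
      · rw [dig_cg J hj (hk_ne.1 (hkk k (by omega))).2.2, h2 j hj]
        by_cases h8 : j = so J (num p) q k
        · have h9 : j / 2 = k := by
            rw [h8, so_div]
          rw [if_pos h8, h9, if_pos ⟨by omega, h8⟩]
        · rw [if_neg h8]
          by_cases h9 : j / 2 = k
          · rw [h9, if_neg (by omega), if_neg (fun h => h8 h.2)]
          · by_cases h10 : j / 2 < k ∧ j = so J (num p) q (j / 2)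
            · rw [if_pos h10, if_pos ⟨by omega, h10.2⟩]
            · rw [if_neg h10, if_neg (fun h => h10 ⟨by omega, h.2⟩)]
      · rw [reads_succ, if_pos h7, h3, sum_range_succ]
        have h6 : lo J A x y (num p) t k = 1 := if_neg h5
        rw [h6, add_assoc]

/-- The machine with blocks reaches the time `t` of the given machine. -/
theorem reach (hC : Cd J A) (hL : Let J x w) (hF : A.Fits x y r s b a) {p : List Bool}
    (hP : Prm (num p) w.length s b a) : ∀ t ≤ r,
    ∃ τ l T1 T2, At J A x w y ((bm J).conf w y p τ) (num p) t 2 l T1 T2 ∧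
      (∀ j < 2 * J.K, dig (pR (num p)) T1 j = sb J A x y (num p) t j) ∧
      (bm J).reads w y p τ = nl1 J A x y (num p) t ∧ Seen J A x w y p τ t := by
  intro t
  induction t with
  | zero =>
    intro _
    have h0 := start_at J A x w y p hC.q0
    have s0 : Seen J A x w y p 0 0 := fun τ' hτ => by
      obtain rfl : τ' = 0 := by omega
      exact ⟨0, le_rfl, _, _, _, _, h0⟩
    have r0 := reads_none (w := w) (y := y) (get_2 (f := 0) J (by omega) h0.st)
    rcases at_0 J h0 with ⟨_, h1⟩ | ⟨h1, _⟩
    · have s1 := s0.succ h1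
      have r1 := reads_none (w := w) (y := y) (p := p) (τ := 1) (get_2 (f := 1) J (by omega) h1.st)
      rcases at_1 J h1 with ⟨_, h2⟩ | ⟨h2, _⟩
      · refine ⟨2, 0, 0, 0, h2, fun j _ => ?_, ?_, s1.succ h2⟩
        · rw [dig_zero]
          rfl
        · rw [r1, r0, reads_zero]
          rfl
      · exact absurd hP.hn h2
    · exact absurd ⟨hP.h0, List.getElem?_eq_none (by rw [← hP.hn])⟩ h1
  | succ t ih =>
    intro ht
    obtain ⟨τ, l, T1, T2, h1, h2, h3, h4⟩ := ih (by omega)
    have r1 := reads_none (w := w) (y := y) (p := p) (τ := τ) (get_2 (f := 2) J (by omega) h1.st)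
    rcases at_2 J h1 with ⟨_, h5⟩ | ⟨h5, _⟩
    · obtain ⟨τ', T1', T2', g1, g2, g3, g4⟩ := loads (τ := τ + 1) hC hF hP (by omega) h5 h2
        (by rw [r1, h3]) (h4.succ h5) J.K le_rfl
      have hl : ∀ i < J.K, dig (pR (num p)) T1' (so J (num p) (num (A.conf x y t).1) i) =
          bn J (num p) (num (A.conf x y t).1) i := by
        intro i hi
        rw [g2 _ (so_lt hi), so_div, if_pos ⟨hi, rfl⟩]
      have hm : ms J (num p) (num (A.conf x y t).1) T1' = J.K :=
        fm_eq fun i hi => ld_ne.2 (hl i hi)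
      have hkk := hk_fit hC hF hP (show t ≤ r by omega)
      have g5 := at_sim hC hL g1 hkk hm (vk_fit hC hF hP (by omega) g1.sl hl) (gN_fit hC hF hP ht)
      have r2 := reads_none (w := w) (y := y) (p := p) (τ := τ') ((get_3 J g1).2 hm)
      refine ⟨τ' + 1, 1, T1', _, g5, fun j hj => ?_, ?_, (g4.mono (by omega)).succ g5⟩
      · rw [g2 j hj]
        show _ = if j = so J (num p) (num (A.conf x y t).1) (j / 2) then
          bn J (num p) (num (A.conf x y t).1) (j / 2) else sb J A x y (num p) t j
        by_cases h6 : j = so J (num p) (num (A.conf x y t).1) (j / 2)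
        · rw [if_pos ⟨by omega, h6⟩, if_pos h6]
        · rw [if_neg (fun h => h6 h.2), if_neg h6]
      · rw [r2, g3]
        unfold nl1
        rw [sum_range_succ]
    · exact absurd h5 (gA_ne hC hF hP (by omega))

/-! ### The number of loads -/

theorem loads_le (hC : Cd J A) (hF : A.Fits x y r s b a) (hP : Prm P w.length s b a) :
    pb P * nl1 J A x y P r ≤ A.moves x y r + 2 * pb P * (A.jumps x y r + K) := by
  classical
  have hK := hC.hK
  -- one head
  have key : ∀ i : Fin K, pb P * ∑ u ∈ range r, lo J A x y P u i ≤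
      (∑ t ∈ range r, if A.cell (A.conf x y (t + 1)).1 i ≠ A.cell (A.conf x y t).1 i
        then 1 else 0) + 2 * pb P * ((∑ t ∈ range r,
          if ¬Reader.Near (A.cell (A.conf x y (t + 1)).1 i) (A.cell (A.conf x y t).1 i)
            then 1 else 0) + 1) := by
    intro i
    rcases r with _ | r
    · rw [range_zero, sum_empty, mul_zero]
      exact Nat.zero_le _
    have hi : (i : ℕ) < J.K := by
      rw [hK]
      exact i.2
    have h1 := pot (β := pb P) (r := r) hP.h0
      (nu := fun t => us J P (num (A.conf x y t).1) i)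
      (z := fun t => cl J P (num (A.conf x y t).1) i)
      (M := fun t => ∑ t ∈ range t, if A.cell (A.conf x y (t + 1)).1 i ≠
        A.cell (A.conf x y t).1 i then 1 else 0)
      (Jc := fun t => ∑ t ∈ range t, if ¬Reader.Near (A.cell (A.conf x y (t + 1)).1 i)
        (A.cell (A.conf x y t).1 i) then 1 else 0)
      (rd := fun t => ∑ u ∈ range (t + 1), lo J A x y P u i)
      (sb := fun t p => sb J A x y P t (2 * i + p)) ?_ ?_ ?_ ?_ r le_rfl
    · refine h1.trans (Nat.add_le_add ?_ (Nat.mul_le_mul_left _ (Nat.add_le_add_right ?_ 1)))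
      · exact sum_le_sum_of_subset (range_subset_range.2 (Nat.le_succ r))
      · exact sum_le_sum_of_subset (range_subset_range.2 (Nat.le_succ r))
    · intro t p hp
      show (if 2 * (i : ℕ) + p = so J P (num (A.conf x y t).1) ((2 * i + p) / 2) then
        bn J P (num (A.conf x y t).1) ((2 * i + p) / 2) else sb J A x y P t (2 * i + p)) = _
      rw [show (2 * (i : ℕ) + p) / 2 = i by omega]
      have e1 : (2 * (i : ℕ) + p = so J P (num (A.conf x y t).1) i) ↔
          p = cl J P (num (A.conf x y t).1) i / pb P % 2 := by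
        unfold so
        omega
      simp only [e1]
      rfl
    · show ∑ u ∈ range 1, lo J A x y P u i ≤ 1
      rw [sum_range_one]
      unfold lo
      split_ifs <;> omega
    · intro t
      show ∑ u ∈ range (t + 1 + 1), lo J A x y P u i = _
      rw [sum_range_succ]
      rfl
    · intro t ht
      have c1 := cl_fit hC hF hP (t := t) (by omega) i
      have c2 := cl_fit hC hF hP (t := t + 1) (by omega) i
      have u1 := us_fit hC hF hP (t := t) (by omega) i
      have u2 := us_fit hC hF hP (t := t + 1) (by omega) i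
      simp only [sum_range_succ]
      rw [c1.2, c2.2, u1, u2]
      set c := A.cell (A.conf x y t).1 i
      set c' := A.cell (A.conf x y (t + 1)).1 i
      by_cases h2 : Reader.Near c' c
      · rw [if_neg (not_not.2 h2)]
        by_cases h3 : c' = c
        · left
          rw [h3]
          exact ⟨rfl, rfl, Nat.le_add_right _ _, Nat.le_add_right _ _⟩
        · right
          left
          rw [if_pos h3]
          have h4 : c'.2 ≠ c.2 := fun h => h3 (Prod.ext h2.1 h)
          have h5 := h2.2.1
          have h6 := h2.2.2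
          exact ⟨by rw [h2.1], by omega, le_rfl, Nat.le_add_right _ _⟩
      · right
        right
        have h3 : c' ≠ c := fun h => h2 (by
          rw [h]
          exact ⟨rfl, by omega, by omega⟩)
        rw [if_pos h3, if_pos h2]
        exact ⟨le_rfl, le_rfl⟩
  have e1 : A.moves x y r = ∑ i : Fin K, ∑ t ∈ range r,
      if A.cell (A.conf x y (t + 1)).1 i ≠ A.cell (A.conf x y t).1 i then 1 else 0 :=
    ncard_pairs r fun t i => A.cell (A.conf x y (t + 1)).1 i ≠ A.cell (A.conf x y t).1 i
  have e2 : A.jumps x y r = ∑ i : Fin K, ∑ t ∈ range r,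
      if ¬Reader.Near (A.cell (A.conf x y (t + 1)).1 i) (A.cell (A.conf x y t).1 i)
        then 1 else 0 :=
    ncard_pairs r fun t i =>
      ¬Reader.Near (A.cell (A.conf x y (t + 1)).1 i) (A.cell (A.conf x y t).1 i)
  have e3 : nl1 J A x y P r = ∑ i : Fin K, ∑ u ∈ range r, lo J A x y P u i := by
    unfold nl1
    rw [sum_comm, hK, Finset.sum_range]
  rw [e1, e2, e3, mul_sum]
  refine (sum_le_sum fun i _ => key i).trans (le_of_eq ?_)
  rw [sum_add_distrib, ← mul_sum, sum_add_distrib]
  simp only [sum_const, card_univ, Fintype.card_fin, smul_eq_mul, mul_one]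

end Pool.Agent.Helper31.SB
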