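import Pool.Agent.Helper31.SB.Sem

/-!
# Machines with reading heads as machines with blocks: configurations
-/

namespace Pool.Agent.Helper31.SB

open Pool.Agent.Helper65.LinSpace Pool.Agent.Helper78.Mpc Pool.Agent.Helper28.Ram Finset
open Pool.Agent.Helper92.RE (LD)
open Pool.Agent.Helper65.OH (letW)
open Pool.Agent.Helper65.BR (bvalN lwN BM Reader)
open Pool.Agent.Helper81.RP (wd wf num_wd wd_num hd tl ls_hd ls_tl hd_eq tl_eq ls_pair linComp_wf
  lett lt01_of wd_inj wd_one head_wd)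
open Pool.Agent.Helper31.Conv (bits_wd wd_pred lt01_not eq01_not eq01_self)
open Pool.Agent.Helper31.TMS (bval_bits)

variable (J : SC)

/-! ### The next state in the phases -/

theorem nx_0 (P l q T1 T2 a b v : ℕ) : nx J (stn P 0 l q T1 T2) a b v =
    ifz (lt01 0 (pb P) * eq01 a 0) 1 (stn P 1 0 q T1 T2) := by
  unfold nx
  rw [stn_div, ifz_ne (mk_pos _ _ _ _ _ _).ne', sf_mk, ifz_zero, sP_mk, sq_mk, s1_mk, s2_mk]

theorem nx_1 (P l q T1 T2 a b v : ℕ) : nx J (stn P 1 l q T1 T2) a b v =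
    ifz (eq01 (pn P) 0 + a) 1 (stn P 2 0 q T1 T2) := by
  unfold nx
  rw [stn_div, ifz_ne (mk_pos _ _ _ _ _ _).ne', sf_mk, ifz_ne one_ne_zero, Nat.sub_self, ifz_zero,
    sP_mk, sq_mk, s1_mk, s2_mk]

theorem nx_2 (P l q T1 T2 a b v : ℕ) : nx J (stn P 2 l q T1 T2) a b v =
    ifz (J.gA (pR P) q) 1 (stn P 3 a q T1 T2) := by
  unfold nx
  rw [stn_div, ifz_ne (mk_pos _ _ _ _ _ _).ne', sf_mk, ifz_ne two_ne_zero,
    show 2 - 1 = 1 from rfl, ifz_ne one_ne_zero, Nat.sub_self, ifz_zero,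
    sP_mk, sq_mk, s1_mk, s2_mk]

theorem nx_3 (P l q T1 T2 a b v : ℕ) : nx J (stn P 3 l q T1 T2) a b v =
    nx3 J P l q T1 T2 b v := by
  unfold nx
  rw [stn_div, ifz_ne (mk_pos _ _ _ _ _ _).ne', sf_mk, ifz_ne three_ne_zero,
    show 3 - 1 = 2 from rfl, ifz_ne two_ne_zero, show 3 - 2 = 1 from rfl, ifz_ne one_ne_zero,
    sP_mk, sl_mk, sq_mk, s1_mk, s2_mk]

theorem adN_0 (P l q T1 T2 : ℕ) : adN J (stn P 0 l q T1 T2) = pn P := by
  unfold adN
  rw [stn_div, sf_mk, ifz_zero, sP_mk]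

theorem adN_1 (P l q T1 T2 : ℕ) : adN J (stn P 1 l q T1 T2) = pn P - 1 := by
  unfold adN
  rw [stn_div, sf_mk, ifz_ne one_ne_zero, Nat.sub_self, ifz_zero, sP_mk]

theorem adN_2 (P l q T1 T2 : ℕ) : adN J (stn P 2 l q T1 T2) = J.D.pos (pn P) (ja J P q) := by
  unfold adN
  rw [stn_div, sf_mk, ifz_ne two_ne_zero, show 2 - 1 = 1 from rfl, ifz_ne one_ne_zero,
    Nat.sub_self, ifz_zero, sP_mk, sq_mk]

theorem adN_3 (P l q T1 T2 : ℕ) : adN J (stn P 3 l q T1 T2) = ja J P q := by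
  unfold adN
  rw [stn_div, sf_mk, ifz_ne three_ne_zero, show 3 - 1 = 2 from rfl, ifz_ne two_ne_zero,
    show 3 - 2 = 1 from rfl, ifz_ne one_ne_zero, sP_mk, sq_mk]

theorem blN_2 {P f l q T1 T2 : ℕ} (hf : f ≤ 2) : blN J (stn P f l q T1 T2) = 1 := by
  unfold blN
  rw [stn_div, sf_mk, show f - 2 = 0 by omega, ifz_zero]

theorem blN_3 (P l q T1 T2 : ℕ) : blN J (stn P 3 l q T1 T2) =
    ifz (J.K - ms J P q T1) 1 (3 + 2 * bn J P q (ms J P q T1)) := by
  unfold blN
  rw [stn_div, sf_mk, show 3 - 2 = 1 from rfl, ifz_ne one_ne_zero, sP_mk, sq_mk, s1_mk]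

theorem nm_head (X : ℕ) : (nm X).head? = some true := by
  unfold nm
  rw [head_wd (by omega)]
  omega

/-! ### The heads -/

variable {J} {K : ℕ} {A : Reader K}

theorem us_num (hC : Cd J A) (P : ℕ) (qq : List Bool) (i : ℕ) : us J P (num qq) i =
    if (A.arr (sd i.bits ++ qq)).length ≤ Nat.log 2 (pR P) then
      num (A.arr (sd i.bits ++ qq)) else 0 := by
  unfold us
  rw [bitsN_eq, sdN_num, catN_num, hC.gU]

theorem ps_num (hC : Cd J A) (P : ℕ) (qq : List Bool) (i : ℕ) : ps J P (num qq) i =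
    if (A.pos (sd i.bits ++ qq)).length ≤ Nat.log 2 (pR P) then
      num (A.pos (sd i.bits ++ qq)) else 0 := by
  unfold ps
  rw [bitsN_eq, sdN_num, catN_num, hC.gP]

theorem cl_num (hC : Cd J A) {P : ℕ} {qq : List Bool} {i : Fin K} (h : ps J P (num qq) i ≠ 0) :
    cl J P (num qq) i = (A.cell qq i).2 := by
  unfold cl
  rw [ps_num hC] at h ⊢
  split_ifs at h ⊢ with h1
  · rw [bvalN_num]
    rfl
  · exact absurd rfl h

theorem us_cell (hC : Cd J A) {P : ℕ} {qq : List Bool} {i : Fin K} (h : us J P (num qq) i ≠ 0) :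
    us J P (num qq) i = num (A.cell qq i).1 := by
  rw [us_num hC] at h ⊢
  split_ifs at h ⊢ with h1
  · rfl
  · exact absurd rfl h

theorem hk_ne {P q i : ℕ} : hk J P q i ≠ 0 ↔ us J P q i ≠ 0 ∧ ps J P q i ≠ 0 ∧
    bn J P q i < pR P := by
  unfold hk
  rw [mul_ne_zero_iff, mul_ne_zero_iff, lt01_ne, lt01_ne, lt01_ne, and_assoc,
    Nat.pos_iff_ne_zero, Nat.pos_iff_ne_zero]

theorem ld_ne {P q T1 i : ℕ} : ld J P q T1 i ≠ 0 ↔ dig (pR P) T1 (so J P q i) = bn J P q i := by
  unfold ld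
  exact eq01_ne

variable (J A) (x w y : List Bool)

/-- What is known in the phases. -/
structure Ph (P t f l : ℕ) : Prop where
  f3 : f ≤ 3
  f0 : f ≤ 1 → t = 0
  f1 : 1 ≤ f → 0 < pb P ∧ w[pn P]? = none
  f2 : 2 ≤ f → w.length = pn P
  f3' : f = 3 → l = codeO w[J.D.pos (pn P) (ja J P (num (A.conf x y t).1))]? ∧
    J.gA (pR P) (num (A.conf x y t).1) ≠ 0
  l2 : l ≤ 2

/-- The configuration `c` of the machine with blocks codes the configuration of the given machine at
the time `t`. -/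
structure At (c : List Bool × (List Bool → List Bool)) (P t f l T1 T2 : ℕ) : Prop where
  st : c.1 = wd (stn P f l (num (A.conf x y t).1) T1 T2)
  sl : Slots J A x y P t T1 T2
  me : Mem J A x y P t c.2
  ph : Ph J A x w y P t f l

theorem step_eq {c : List Bool × (List Bool → List Bool)} {σ : ℕ} (hσ : 0 < σ)
    (h : c.1 = wd σ) : (bm J).step w y c = (wd (nx J σ (codeO w[adN J σ]?) (codeO y[adN J σ]?)
      (num ((bm J).get c.1 c.2))), nM J (nx J σ (codeO w[adN J σ]?) (codeO y[adN J σ]?)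
      (num ((bm J).get c.1 c.2))) c.2) := by
  have h1 : (bm J).nx w y c.1 ((bm J).get c.1 c.2) = wd (nx J σ (codeO w[adN J σ]?)
      (codeO y[adN J σ]?) (num ((bm J).get c.1 c.2))) := by
    set v := (bm J).get c.1 c.2 with hv
    rw [h, bm_next J hσ]
  show ((bm J).nx w y c.1 ((bm J).get c.1 c.2), fun u => (bm J).write
    (sd ((bm J).nx w y c.1 ((bm J).get c.1 c.2)) ++ (sd u ++ c.2 u))) = _
  rw [h1]
  congr 1
  funext u
  rw [bm_write J (nx_pos J _ _ _ _)]
  rfl

theorem get_2 {c : List Bool × (List Bool → List Bool)} {P f l q T1 T2 : ℕ} (hf : f ≤ 2)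
    (h : c.1 = wd (stn P f l q T1 T2)) : (bm J).blk c.1 = [] := by
  rw [h, bm_blk J (stn_pos' _ _ _ _ _ _), blN_2 J hf, wd_one]

theorem start_at (p : List Bool) (h : J.q0 = num A.start) :
    At J A x w y ((bm J).conf w y p 0) (num p) 0 0 0 0 0 where
  st := by
    show (bm J).start p = _
    rw [bm_start]
    unfold stN
    rw [h]
    rfl
  sl := slots_zero J A x y (num p)
  me := mem_zero J A x y (num p)
  ph := ⟨by omega, fun _ => rfl, fun h => absurd h (by omega), fun h => absurd h (by omega),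
    fun h => absurd h (by omega), by omega⟩

variable {A x w y} {c : List Bool × (List Bool → List Bool)} {P t l T1 T2 : ℕ}

/-- The general form of a step in which the given machine makes no step. -/
theorem at_of {f f' l' T1' T2' : ℕ} (hA : At J A x w y c P t f l T1 T2)
    (h1 : nx J (stn P f l (num (A.conf x y t).1) T1 T2)
      (codeO w[adN J (stn P f l (num (A.conf x y t).1) T1 T2)]?)
      (codeO y[adN J (stn P f l (num (A.conf x y t).1) T1 T2)]?)
      (num ((bm J).get c.1 c.2)) = stn P f' l' (num (A.conf x y t).1) T1' T2')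
    (h2 : f' = 2 → l' = 0)
    (hS : Slots J A x y P t T1' T2') (hP : Ph J A x w y P t f' l') :
    At J A x w y ((bm J).step w y c) P t f' l' T1' T2' := by
  rw [step_eq J w y (stn_pos' _ _ _ _ _ _) hA.st, h1]
  refine ⟨rfl, hS, ?_, hP⟩
  show Mem J A x y P t (nM J _ c.2)
  rw [mem_same J h2]
  exact hA.me

theorem dead_of {f : ℕ} (hA : At J A x w y c P t f l T1 T2)
    (h1 : nx J (stn P f l (num (A.conf x y t).1) T1 T2)
      (codeO w[adN J (stn P f l (num (A.conf x y t).1) T1 T2)]?)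
      (codeO y[adN J (stn P f l (num (A.conf x y t).1) T1 T2)]?)
      (num ((bm J).get c.1 c.2)) = 1) :
    ((bm J).step w y c).1 = wd 1 := by
  rw [step_eq J w y (stn_pos' _ _ _ _ _ _) hA.st, h1]

theorem codeO_ne {a : Option Bool} : codeO a ≠ 0 ↔ a ≠ none := by
  rcases a with _ | a
  · exact ⟨fun h => absurd rfl h, fun h => absurd rfl h⟩
  · refine ⟨fun _ h => by simp at h, fun _ => ?_⟩
    show 1 + a.toNat ≠ 0
    omega

theorem codeO_le (a : Option Bool) : codeO a ≤ 2 := by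
  rcases a with _ | a
  · exact Nat.zero_le _
  · show 1 + a.toNat ≤ 2
    have := toNat_le_one a
    omega

/-- Phase `0`. -/
theorem at_0 (hA : At J A x w y c P t 0 l T1 T2) :
    ((0 < pb P ∧ w[pn P]? = none) ∧ At J A x w y ((bm J).step w y c) P t 1 0 T1 T2) ∨
    (¬(0 < pb P ∧ w[pn P]? = none) ∧ ((bm J).step w y c).1 = wd 1) := by
  have h1 := nx_0 J P l (num (A.conf x y t).1) T1 T2
    (codeO w[adN J (stn P 0 l (num (A.conf x y t).1) T1 T2)]?)
    (codeO y[adN J (stn P 0 l (num (A.conf x y t).1) T1 T2)]?) (num ((bm J).get c.1 c.2))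
  by_cases h : 0 < pb P ∧ w[pn P]? = none
  · refine Or.inl ⟨h, at_of J hA (h1.trans ?_) (by omega) hA.sl ?_⟩
    · rw [adN_0, ifz_ne]
      rw [mul_ne_zero_iff, lt01_ne, eq01_ne, h.2]
      exact ⟨h.1, rfl⟩
    · exact ⟨by omega, fun _ => hA.ph.f0 (by omega), fun _ => h, fun h => absurd h (by omega),
        fun h => absurd h (by omega), by omega⟩
  · refine Or.inr ⟨h, dead_of J hA (h1.trans ?_)⟩
    have h2 : lt01 0 (pb P) * eq01 (codeO w[pn P]?) 0 = 0 := by
      by_contra h3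
      rw [← Ne, mul_ne_zero_iff, lt01_ne, eq01_ne] at h3
      refine h ⟨h3.1, ?_⟩
      by_contra h4
      exact (codeO_ne.2 h4) h3.2
    rw [adN_0, h2, ifz_zero]

/-- Phase `1`. -/
theorem at_1 (hA : At J A x w y c P t 1 l T1 T2) :
    (w.length = pn P ∧ At J A x w y ((bm J).step w y c) P t 2 0 T1 T2) ∨
    (w.length ≠ pn P ∧ ((bm J).step w y c).1 = wd 1) := by
  have h1 := nx_1 J P l (num (A.conf x y t).1) T1 T2
    (codeO w[adN J (stn P 1 l (num (A.conf x y t).1) T1 T2)]?)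
    (codeO y[adN J (stn P 1 l (num (A.conf x y t).1) T1 T2)]?) (num ((bm J).get c.1 c.2))
  have h2 := (hA.ph.f1 le_rfl).2
  rw [List.getElem?_eq_none_iff] at h2
  have h3 : eq01 (pn P) 0 + codeO w[pn P - 1]? ≠ 0 ↔ w.length = pn P := by
    constructor
    · intro h3
      by_cases h4 : pn P = 0
      · omega
      · rw [eq01_not h4, zero_add, codeO_ne] at h3
        by_contra h5
        exact h3 (List.getElem?_eq_none (by omega))
    · intro h3
      by_cases h4 : pn P = 0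
      · rw [h4, eq01_self]
        omega
      · rw [eq01_not h4, zero_add, codeO_ne, List.getElem?_eq_getElem (by omega)]
        simp
  by_cases h : w.length = pn P
  · refine Or.inl ⟨h, at_of J hA (h1.trans ?_) (fun _ => rfl) hA.sl ?_⟩
    · rw [adN_1, ifz_ne (h3.2 h)]
    · exact ⟨by omega, fun h => absurd h (by omega), fun _ => hA.ph.f1 le_rfl, fun _ => h,
        fun h => absurd h (by omega), by omega⟩
  · refine Or.inr ⟨h, dead_of J hA (h1.trans ?_)⟩
    have h4 : eq01 (pn P) 0 + codeO w[pn P - 1]? = 0 := by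
      by_contra h5
      exact h (h3.1 h5)
    rw [adN_1, h4, ifz_zero]

/-- Phase `2`. -/
theorem at_2 (hA : At J A x w y c P t 2 l T1 T2) :
    (J.gA (pR P) (num (A.conf x y t).1) ≠ 0 ∧ At J A x w y ((bm J).step w y c) P t 3
      (codeO w[J.D.pos (pn P) (ja J P (num (A.conf x y t).1))]?) T1 T2) ∨
    (J.gA (pR P) (num (A.conf x y t).1) = 0 ∧ ((bm J).step w y c).1 = wd 1) := by
  have h1 := nx_2 J P l (num (A.conf x y t).1) T1 T2
    (codeO w[adN J (stn P 2 l (num (A.conf x y t).1) T1 T2)]?)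
    (codeO y[adN J (stn P 2 l (num (A.conf x y t).1) T1 T2)]?) (num ((bm J).get c.1 c.2))
  by_cases h : J.gA (pR P) (num (A.conf x y t).1) = 0
  · refine Or.inr ⟨h, dead_of J hA (h1.trans ?_)⟩
    rw [h, ifz_zero]
  · refine Or.inl ⟨h, at_of J hA (h1.trans ?_) (fun h => absurd h (by omega)) hA.sl ?_⟩
    · rw [adN_2, ifz_ne h]
    · exact ⟨le_rfl, fun h => absurd h (by omega), fun _ => hA.ph.f1 (by omega),
        fun _ => hA.ph.f2 le_rfl, fun _ => ⟨rfl, h⟩, codeO_le _⟩

/-- The word which is read. -/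
theorem get_3 (hA : At J A x w y c P t 3 l T1 T2) :
    (ms J P (num (A.conf x y t).1) T1 < J.K → ((bm J).blk c.1).head? = some true ∧
      (bm J).blk c.1 = nm (bn J P (num (A.conf x y t).1) (ms J P (num (A.conf x y t).1) T1)) ∧
      num ((bm J).get c.1 c.2) = tb J A x y P t
        (bn J P (num (A.conf x y t).1) (ms J P (num (A.conf x y t).1) T1)) + 1) ∧
    (ms J P (num (A.conf x y t).1) T1 = J.K → (bm J).blk c.1 = []) := by
  have h1 : (bm J).blk c.1 = wd (blN J (stn P 3 l (num (A.conf x y t).1) T1 T2)) := by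
    rw [hA.st, bm_blk J (stn_pos' _ _ _ _ _ _)]
  rw [blN_3] at h1
  constructor
  · intro h
    rw [ifz_ne (by omega)] at h1
    have h2 : (bm J).blk c.1 = nm (bn J P (num (A.conf x y t).1)
        (ms J P (num (A.conf x y t).1) T1)) := h1
    have h3 : ((bm J).blk c.1).head? = some true := by
      rw [h2]
      exact nm_head _
    refine ⟨h3, h2, ?_⟩
    unfold BM.get
    rw [if_pos h3, h2, hA.me.me, num_wd (by omega)]
  · intro h
    rw [h, Nat.sub_self, ifz_zero, wd_one] at h1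
    exact h1

/-- Phase `3`, a block is loaded. -/
theorem at_load (hA : At J A x w y c P t 3 l T1 T2)
    (hp : ∀ i < J.K, hk J P (num (A.conf x y t).1) i ≠ 0)
    (hm : ms J P (num (A.conf x y t).1) T1 < J.K) :
    At J A x w y ((bm J).step w y c) P t 3 l
      (cg J P T1 (so J P (num (A.conf x y t).1) (ms J P (num (A.conf x y t).1) T1))
        (bn J P (num (A.conf x y t).1) (ms J P (num (A.conf x y t).1) T1)))
      (cg J P T2 (so J P (num (A.conf x y t).1) (ms J P (num (A.conf x y t).1) T1))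
        (tb J A x y P t (bn J P (num (A.conf x y t).1)
          (ms J P (num (A.conf x y t).1) T1)))) := by
  refine at_of J hA ((nx_3 J P l _ T1 T2 _ _ _).trans ?_) (fun h => absurd h (by omega))
    (slots_load J A x y hA.sl (hk_ne.1 (hp _ hm)).2.2) hA.ph
  unfold nx3
  rw [ifz_ne (pr_ne.2 hp), ifz_ne (by omega), ((get_3 J hA).1 hm).2.2, Nat.add_sub_cancel]

theorem nx3_dead {q b v : ℕ} (h : ¬∀ i < J.K, hk J P q i ≠ 0) :
    nx3 J P l q T1 T2 b v = 1 := by
  unfold nx3
  have h1 : pr (hk J P q) J.K = 0 := by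
    by_contra h2
    exact h (pr_ne.1 h2)
  rw [h1, ifz_zero]

end Pool.Agent.Helper31.SB
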