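import Mathlib

/-!
# The choice of the length of the blocks
-/

namespace Pool.Agent.Helper31.SB

/-- The number of cells of a block. -/
def beta (M q : ℕ) : ℕ := max 1 (M / q)

theorem beta_pos (M q : ℕ) : 1 ≤ beta M q := le_max_left _ _

theorem beta_cases (M q : ℕ) : beta M q = 1 ∨ beta M q * q ≤ M := by
  unfold beta
  rcases le_total (M / q) 1 with h | h
  · exact Or.inl (max_eq_left h)
  · right
    rw [max_eq_right h]
    exact Nat.div_mul_le_self M q

theorem lt_beta {M q : ℕ} (hq : 0 < q) : M ≤ 2 * beta M q * q := by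
  have h1 : M / q ≤ beta M q := le_max_right _ _
  have h2 := beta_pos M q
  have h3 : M < (M / q + 1) * q := by
    have := Nat.div_add_mod M q
    have h4 := Nat.mod_lt M hq
    nlinarith
  have h4 : (M / q + 1) * q ≤ 2 * beta M q * q := Nat.mul_le_mul_right _ (by omega)
  omega

/-- The bounds for the reads and the lengths. -/
theorem real_bounds {C N N' B l lw M Jn s a b x K S' c1 β : ℝ}
    (hM : 0 ≤ M) (hJ : 0 ≤ Jn) (hs : 0 ≤ s) (ha : 0 ≤ a) (hb : 0 ≤ b) (hx : 0 ≤ x) (hK : 0 ≤ K)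
    (hN : 1 ≤ N) (hN' : 1 ≤ N') (hB : 1 ≤ B) (hNB : N ≤ B * N') (hlw : 1 ≤ lw) (hl : b + lw ≤ l)
    (hJM : Jn ≤ M) (hβ : 1 ≤ β) (hβ1 : β = 1 ∨ β * (Jn + N) ≤ M) (hβ2 : M ≤ 2 * β * (Jn + N))
    (hxβ : β * x ≤ M + 2 * β * (Jn + K)) (hc1 : 0 ≤ c1)
    (hS' : S' ≤ c1 * (s + (a + 1) * β + 2 * b + 2 + lw))
    (h1 : M * (Jn + N) * (a + 1) * l ^ 4 ≤ C * N ^ 3)
    (h2 : (s + a + l) * l ^ 4 ≤ C * N) :
    x ^ 2 * ((a + 1) * β + 1) * (2 * b + 4 + lw) ^ 4 ≤
        (1250 * (20 + 16 * K ^ 2) * C * B ^ 3 + 2500 * (c1 + 1) * C * B) * N' ^ 3 ∧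
      (S' + (a + 1) * β) * (2 * b + 4 + lw) ^ 4 ≤
        (1250 * (20 + 16 * K ^ 2) * C * B ^ 3 + 2500 * (c1 + 1) * C * B) * N' := by
  have hl1 : 1 ≤ l := by linarith
  have hl4 : 1 ≤ l ^ 4 := one_le_pow₀ hl1
  have hC : 0 < C := by
    have h3 : 0 < (s + a + l) * l ^ 4 := by positivity
    by_contra h4
    have : C * N ≤ 0 := mul_nonpos_of_nonpos_of_nonneg (by linarith) (by linarith)
    linarith
  obtain ⟨D, hD⟩ : ∃ D, D = (a + 1) * l ^ 4 := ⟨_, rfl⟩
  have hD0 : 0 < D := by rw [hD]; positivity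
  have hD1 : D ≤ C * N := by
    refine le_trans ?_ h2
    rw [hD]
    exact mul_le_mul_of_nonneg_right (by linarith) (by positivity)
  have h1' : M * (Jn + N) * D ≤ C * N ^ 3 := by
    rw [hD]
    calc M * (Jn + N) * ((a + 1) * l ^ 4) = M * (Jn + N) * (a + 1) * l ^ 4 := by ring
      _ ≤ _ := h1
  have hN0 : 0 < N := by linarith
  -- `β D ≤ C N`
  have f1 : β * D ≤ C * N := by
    rcases hβ1 with h | h
    · rw [h, one_mul]
      exact hD1
    · have g1 : β * D * N ^ 2 ≤ C * N * N ^ 2 := by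
        calc β * D * N ^ 2 ≤ β * D * ((Jn + N) * (Jn + N)) := by
              refine mul_le_mul_of_nonneg_left ?_ (by positivity)
              nlinarith
          _ = β * (Jn + N) * (Jn + N) * D := by ring
          _ ≤ M * (Jn + N) * D := by
              refine mul_le_mul_of_nonneg_right ?_ hD0.le
              exact mul_le_mul_of_nonneg_right h (by linarith)
          _ ≤ C * N ^ 3 := h1'
          _ = C * N * N ^ 2 := by ring
      exact le_of_mul_le_mul_right g1 (by positivity)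
  -- `β Jn² ≤ M (Jn + N)`
  have f3 : β * Jn ^ 2 ≤ M * (Jn + N) := by
    have g0 : M * Jn ≤ M * (Jn + N) := mul_le_mul_of_nonneg_left (by linarith) hM
    rcases hβ1 with h | h
    · rw [h, one_mul]
      nlinarith
    · have g1 : β * Jn ≤ M := by nlinarith
      calc β * Jn ^ 2 = β * Jn * Jn := by ring
        _ ≤ M * Jn := mul_le_mul_of_nonneg_right g1 hJ
        _ ≤ _ := g0
  -- `x² β ≤ 20 M (Jn + N) + 16 β K²`
  have f4 : x ^ 2 * β ≤ 20 * (M * (Jn + N)) + 16 * (β * K ^ 2) := by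
    have hβ0 : 0 < β := by linarith
    have g1 : (β * x) ^ 2 ≤ (M + 2 * β * (Jn + K)) ^ 2 :=
      pow_le_pow_left₀ (by positivity) hxβ 2
    have g2 : (M + 2 * β * (Jn + K)) ^ 2 ≤ 2 * M ^ 2 + 16 * β ^ 2 * Jn ^ 2 +
        16 * β ^ 2 * K ^ 2 := by
      nlinarith [sq_nonneg (M - 2 * β * (Jn + K)), sq_nonneg (β * (Jn - K))]
    have g3 : M ^ 2 ≤ 2 * β * (Jn + N) * M := by nlinarith
    have g4 : β * (β * Jn ^ 2) ≤ β * (M * (Jn + N)) := mul_le_mul_of_nonneg_left f3 hβ0.le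
    have g5 : β * (x ^ 2 * β) ≤ β * (20 * (M * (Jn + N)) + 16 * (β * K ^ 2)) := by
      nlinarith
    exact le_of_mul_le_mul_left g5 hβ0
  have hlen : 2 * b + 4 + lw ≤ 5 * l := by linarith
  have hlen4 : (2 * b + 4 + lw) ^ 4 ≤ 625 * l ^ 4 := by
    calc (2 * b + 4 + lw) ^ 4 ≤ (5 * l) ^ 4 := pow_le_pow_left₀ (by linarith) hlen 4
      _ = _ := by ring
  have hN3 : N ≤ N ^ 3 := by nlinarith [one_le_pow₀ hN (n := 2)]
  have hNN3 : N ^ 3 ≤ B ^ 3 * N' ^ 3 := by
    calc N ^ 3 ≤ (B * N') ^ 3 := pow_le_pow_left₀ hN0.le hNB 3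
      _ = _ := by ring
  have hN'3 : N' ≤ N' ^ 3 := by nlinarith [one_le_pow₀ hN' (n := 2)]
  have hB0 : 0 < B := by linarith
  have hN'0 : 0 < N' := by linarith
  constructor
  · have e1 : (a + 1) * β + 1 ≤ 2 * ((a + 1) * β) := by nlinarith
    calc x ^ 2 * ((a + 1) * β + 1) * (2 * b + 4 + lw) ^ 4
        ≤ x ^ 2 * (2 * ((a + 1) * β)) * (625 * l ^ 4) := by
          have : 0 ≤ x ^ 2 := sq_nonneg x
          gcongr
      _ = 1250 * (x ^ 2 * β * D) := by rw [hD]; ring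
      _ ≤ 1250 * ((20 * (M * (Jn + N)) + 16 * (β * K ^ 2)) * D) := by
          have := mul_le_mul_of_nonneg_right f4 hD0.le
          linarith
      _ = 1250 * (20 * (M * (Jn + N) * D) + 16 * K ^ 2 * (β * D)) := by ring
      _ ≤ 1250 * (20 * (C * N ^ 3) + 16 * K ^ 2 * (C * N)) := by
          have := mul_le_mul_of_nonneg_left f1 (show 0 ≤ 16 * K ^ 2 by positivity)
          linarith
      _ ≤ 1250 * (20 * (C * N ^ 3) + 16 * K ^ 2 * (C * N ^ 3)) := by
          have e2 : C * N ≤ C * N ^ 3 := mul_le_mul_of_nonneg_left hN3 hC.le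
          have := mul_le_mul_of_nonneg_left e2 (show 0 ≤ 16 * K ^ 2 by positivity)
          linarith
      _ = 1250 * (20 + 16 * K ^ 2) * C * N ^ 3 := by ring
      _ ≤ 1250 * (20 + 16 * K ^ 2) * C * (B ^ 3 * N' ^ 3) :=
          mul_le_mul_of_nonneg_left hNN3 (by positivity)
      _ ≤ (1250 * (20 + 16 * K ^ 2) * C * B ^ 3 + 2500 * (c1 + 1) * C * B) * N' ^ 3 := by
          have : 0 ≤ 2500 * (c1 + 1) * C * B * N' ^ 3 := by positivity
          nlinarith
  · have e1 : s + (a + 1) * β + 2 * b + 2 + lw ≤ s + (a + 1) * β + 3 * l := by linarith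
    have e2 : S' + (a + 1) * β ≤ (c1 + 1) * (s + (a + 1) * β + 3 * l) := by
      have g1 := mul_le_mul_of_nonneg_left e1 hc1
      have g2 : (a + 1) * β ≤ s + (a + 1) * β + 3 * l := by linarith
      nlinarith
    calc (S' + (a + 1) * β) * (2 * b + 4 + lw) ^ 4
        ≤ ((c1 + 1) * (s + (a + 1) * β + 3 * l)) * (625 * l ^ 4) := by
          refine mul_le_mul e2 hlen4 (by positivity) (by positivity)
      _ = 625 * (c1 + 1) * ((s + 3 * l) * l ^ 4 + β * D) := by rw [hD]; ring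
      _ ≤ 625 * (c1 + 1) * (3 * ((s + a + l) * l ^ 4) + β * D) := by
          have g1 : (s + 3 * l) * l ^ 4 ≤ 3 * ((s + a + l) * l ^ 4) := by
            have : (s + 3 * l) ≤ 3 * (s + a + l) := by linarith
            calc (s + 3 * l) * l ^ 4 ≤ (3 * (s + a + l)) * l ^ 4 :=
                  mul_le_mul_of_nonneg_right this (by positivity)
              _ = _ := by ring
          exact mul_le_mul_of_nonneg_left (by linarith) (by positivity)
      _ ≤ 625 * (c1 + 1) * (3 * (C * N) + C * N) :=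
          mul_le_mul_of_nonneg_left (by linarith) (by positivity)
      _ = 2500 * (c1 + 1) * C * N := by ring
      _ ≤ 2500 * (c1 + 1) * C * (B * N') := mul_le_mul_of_nonneg_left hNB (by positivity)
      _ ≤ (1250 * (20 + 16 * K ^ 2) * C * B ^ 3 + 2500 * (c1 + 1) * C * B) * N' := by
          have : 0 ≤ 1250 * (20 + 16 * K ^ 2) * C * B ^ 3 * N' := by positivity
          nlinarith

end Pool.Agent.Helper31.SB
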