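import Pool.Agent.Helper31.SB.Bnd
import Pool.Agent.Helper31.SB.Real
import Pool.Agent.Helper65.BR.Final2

/-!
# Machines with reading heads on a memory of arrays are simulated by machines with blocks
-/

namespace Pool.Agent.Helper31.SB

open Pool.Agent.Helper65.LinSpace Pool.Agent.Helper78.Mpc Pool.Agent.Helper28.Ram Finset
open Pool.Agent.Helper92.RE (LD)
open Pool.Agent.Helper65.OH (letW)
open Pool.Agent.Helper65.BR (bvalN lwN BM Reader SimA bm_all)
open Pool.Agent.Helper81.RP (wd wf num_wd wd_num hd tl ls_hd ls_tl hd_eq tl_eq ls_pair linComp_wf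
  lett lt01_of wd_inj wd_one head_wd length_wd length_wd_le)
open Pool.Agent.Helper31.Conv (bits_wd wd_pred lt01_not eq01_not eq01_self bits_length_le
  log_add_le ls_log2)
open Pool.Agent.Helper31.TMS (bval_bits)

variable {J : SC} {K : ℕ} {A : Reader K} {x w y : List Bool} {P r s b a t : ℕ}

theorem jumps_le (A : Reader K) (x y : List Bool) (r : ℕ) :
    A.jumps x y r ≤ A.moves x y r := by
  unfold Reader.jumps Reader.moves
  refine Set.ncard_le_ncard ?_ ?_
  · rintro z ⟨h1, h2⟩
    refine ⟨h1, fun h3 => h2 ?_⟩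
    rw [h3]
    exact ⟨rfl, by omega, by omega⟩
  · refine Set.Finite.subset ((Set.finite_lt_nat r).prod (Set.finite_univ (α := Fin K))) ?_
    rintro z ⟨h1, -⟩
    exact ⟨h1, Set.mem_univ _⟩

theorem pP_pos {S n a b : ℕ} : 0 < pP S n a b := by
  have h1 := Nat.right_le_pair (Nat.pair (2 ^ S - 2) n) (Nat.pair (a + 1) b)
  have h2 := Nat.left_le_pair (a + 1) b
  unfold pP
  omega

/-- The constant for the length of the states. -/
def cS (K cD : ℕ) : ℕ := 100 + 32 * K + cD

/-- The constant of the simulation. -/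
noncomputable def cR (K cD b₀ : ℕ) (C : ℝ) : ℝ :=
  1250 * (20 + 16 * (K : ℝ) ^ 2) * C * ((b₀ : ℝ) + 1) ^ 3 +
    2500 * ((cS K cD : ℝ) + 1) * C * ((b₀ : ℝ) + 1)

/-- **The simulation.** -/
theorem bm_within (hC : Cd J A) (hL : Let J x w) {cD b₀ : ℕ}
    (hD : ∀ n u, Nat.log 2 (J.D.pos n u) ≤ cD * (Nat.log 2 n + Nat.log 2 u + 1))
    (hlen : x.length ≤ b₀ * (w.length + 1)) (hle : w.length ≤ x.length) {C : ℝ}
    (h : A.Within C x y) : (bm J).Within (cR K cD b₀ C) w y := by
  unfold cR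
  obtain ⟨r, s, b, a, hacc, hF, h1, h2⟩ := h
  obtain ⟨β, hβ⟩ : ∃ β, β = beta (A.moves x y r) (A.jumps x y r + x.length + 1) := ⟨_, rfl⟩
  have hβ0 : 1 ≤ β := hβ ▸ beta_pos _ _
  obtain ⟨S, hS⟩ : ∃ S, S = s + (a + 1) * β + (2 * b + 2) := ⟨_, rfl⟩
  obtain ⟨p, hp⟩ : ∃ p, p = wd (pP S w.length a β) := ⟨_, rfl⟩
  have hnp : num p = pP S w.length a β := by rw [hp, num_wd pP_pos]
  have haβ : a + 1 ≤ (a + 1) * β := Nat.le_mul_of_pos_right _ hβ0
  have hβa : β ≤ (a + 1) * β := Nat.le_mul_of_pos_left _ (Nat.succ_pos a)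
  have hk : pk (num p) = a + 1 := by rw [hnp, pk_pP (by omega)]
  have hb' : pb (num p) = β := by rw [hnp, pb_pP (by omega) (by omega)]
  have hR : pR (num p) = 2 ^ S := by rw [hnp, pR_pP (by omega)]
  have hlR : Nat.log 2 (pR (num p)) = S := by rw [hnp, log_pR (by omega)]
  have hP : Prm (num p) w.length s b a :=
    ⟨by omega, by omega, by omega, by omega, by rw [hnp, pn_pP]⟩
  obtain ⟨τ, l, T1, T2, g1, -, g3, g4⟩ := reach hC hL hF hP r le_rfl
  have hlp : p.length ≤ 12 * S + 4 * Nat.log 2 w.length + 5 := by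
    rw [← log_num p, hnp]
    exact log_P (by omega) (by omega)
  have hfit := fits hC hF hP hR hD g4
  rw [hk, hb'] at hfit
  obtain ⟨S', hS'⟩ : ∃ S', S' = cS K cD * (S + Nat.log 2 w.length + 1) := ⟨_, rfl⟩
  have hSS : 2 * p.length + (8 + 32 * K) * S + (cD + 1) * (Nat.log 2 w.length + S + 1) + 61 ≤
      S' := by
    have e1 : S' = 100 * S + 100 * Nat.log 2 w.length + 100 + (8 + 32 * K) * S - 8 * S +
        32 * (K * Nat.log 2 w.length) + 32 * K +
        ((cD + 1) * (Nat.log 2 w.length + S + 1)) - (Nat.log 2 w.length + S + 1) := by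
      have e2 : (8 + 32 * K) * S = 8 * S + 32 * (K * S) := by ring
      have e3 : (cD + 1) * (Nat.log 2 w.length + S + 1) =
          cD * (Nat.log 2 w.length + S + 1) + (Nat.log 2 w.length + S + 1) := by ring
      have e4 : S' = 100 * S + 100 * Nat.log 2 w.length + 100 + 32 * (K * S) +
          32 * (K * Nat.log 2 w.length) + 32 * K + cD * (Nat.log 2 w.length + S + 1) := by
        rw [hS']
        unfold cS
        ring
      omega
    omega
  have hpS : p.length ≤ S' := by omega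
  have hfit' : (bm J).Fits w y p τ S' (2 * b + 4) ((a + 1) * β) := by
    intro τ' hτ
    obtain ⟨f1, f2, f3, f4⟩ := hfit τ' hτ
    exact ⟨f1.trans hSS, f2.trans hSS, f3, f4⟩
  have hacc' : (bm J).AcceptsAt w y p τ := by
    unfold BM.AcceptsAt
    rw [g1.st, head_stn]
    exact hacc
  have hlo := loads_le hC hF hP
  rw [hb', ← g3] at hlo
  have hJM := jumps_le A x y r
  have hbc := beta_cases (A.moves x y r) (A.jumps x y r + x.length + 1)
  have hlb := lt_beta (M := A.moves x y r) (q := A.jumps x y r + x.length + 1) (by omega)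
  rw [← hβ] at hbc hlb
  have hlog : Nat.log 2 w.length ≤ Nat.log 2 x.length := Nat.log_mono_right hle
  have hres := real_bounds (C := C) (N := (x.length : ℝ) + 1) (N' := (w.length : ℝ) + 1)
    (B := (b₀ : ℝ) + 1) (l := (b : ℝ) + ((Nat.log 2 x.length : ℝ) + 1))
    (lw := (Nat.log 2 w.length : ℝ) + 1) (M := A.moves x y r) (Jn := A.jumps x y r) (s := s)
    (a := a) (b := b) (x := (bm J).reads w y p τ) (K := K) (S' := S') (c1 := cS K cD) (β := β)
    (Nat.cast_nonneg _) (Nat.cast_nonneg _) (Nat.cast_nonneg _) (Nat.cast_nonneg _)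
    (Nat.cast_nonneg _) (Nat.cast_nonneg _) (Nat.cast_nonneg _)
    (le_add_of_nonneg_left (Nat.cast_nonneg _)) (le_add_of_nonneg_left (Nat.cast_nonneg _))
    (le_add_of_nonneg_left (Nat.cast_nonneg _)) ?_ (le_add_of_nonneg_left (Nat.cast_nonneg _))
    ?_ (by exact_mod_cast hJM) (by exact_mod_cast hβ0) ?_ ?_ ?_ (Nat.cast_nonneg _) ?_ ?_ h2
  · refine ⟨p, τ, S', 2 * b + 4, (a + 1) * β, hacc', hpS, hfit', ?_, ?_⟩
    · have := hres.1
      push_cast
      convert this using 2
    · have := hres.2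
      push_cast
      convert this using 2
  · have h3 : x.length + 1 ≤ (b₀ + 1) * (w.length + 1) := by nlinarith
    exact_mod_cast h3
  · have : (Nat.log 2 w.length : ℝ) ≤ Nat.log 2 x.length := by exact_mod_cast hlog
    linarith
  · rcases hbc with h3 | h3
    · left
      exact_mod_cast h3
    · right
      have h4 : ((β * (A.jumps x y r + x.length + 1) : ℕ) : ℝ) ≤ A.moves x y r := by
        exact_mod_cast h3
      push_cast at h4
      linarith
  · have h4 : (A.moves x y r : ℝ) ≤ ((2 * β * (A.jumps x y r + x.length + 1) : ℕ) : ℝ) := by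
      exact_mod_cast hlb
    push_cast at h4
    linarith
  · have h4 : ((β * (bm J).reads w y p τ : ℕ) : ℝ) ≤
        ((A.moves x y r + 2 * β * (A.jumps x y r + K) : ℕ) : ℝ) := by exact_mod_cast hlo
    push_cast at h4
    linarith
  · have h4 : (S' : ℝ) = ((cS K cD * (S + Nat.log 2 w.length + 1) : ℕ) : ℝ) := by rw [hS']
    rw [h4, hS]
    push_cast
    refine le_of_eq ?_
    ring
  · refine le_trans (le_of_eq ?_) h1
    ring

/-- **Machines with reading heads on a memory of arrays**, on the words `F w y`, in any time. -/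
theorem sim_reader (c : ℕ) {D : LD} {F : List Bool → List Bool} (hF : D.Is F) {b₀ : ℕ}
    (hlen : ∀ w, (F w).length ≤ b₀ * (w.length + 1)) (hle : ∀ w, w.length ≤ (F w).length)
    {K : ℕ} (A : Reader K) (C : ℝ) :
    SimA c (fun w y => ∃ t, A.AcceptsAt (F w) y t) fun w y => A.Within C (F w) y := by
  obtain ⟨J, hJ, hC⟩ := exists_sc A D
  obtain ⟨cD, hD⟩ := ls_log2 D.ls_pos
  subst hJ
  have hL : ∀ w, Let J (F w) w := fun w => (hF w).2
  refine ⟨_, _, bm_all c (bm J) (cR K cD b₀ C), ?_, ?_, 0, ?_⟩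
  · rintro w y ⟨p, r, h1⟩
    exact sound hC (hL w) h1
  · rintro w y h
    obtain ⟨p, r, _, _, _, h1, -⟩ := bm_within hC (hL w) hD (hlen w) (hle w) h
    exact ⟨p, r, h1⟩
  · exact fun w y _ _ h => bm_within hC (hL w) hD (hlen w) (hle w) h

/-- The data for the words `w` themselves. -/
def idD : LD where
  len n := n
  pos _ u := u
  lt _ _ r := r
  ls_len := LS.id
  ls_pos := LS.snd
  ls_lt := LS.comp (g := fun z : ℕ × ℕ => z.2) (f := fun z : ℕ × ℕ × ℕ => z.2) LS.snd LS.snd

theorem idD_is : idD.Is fun w => w := fun _ => ⟨rfl, fun _ => rfl⟩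

/-- **Machines with reading heads on a memory of arrays**, in any time. -/
theorem reader_sim (c : ℕ) {K : ℕ} (A : Reader K) (C : ℝ) :
    SimA c (fun w y => ∃ t, A.AcceptsAt w y t) (A.Within C) :=
  sim_reader c idD_is (b₀ := 1) (fun w => by omega) (fun _ => le_rfl) A C

end Pool.Agent.Helper31.SB
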