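import Pool.Agent.Helper31.DLS.Fn

/-!
# Functions on words which are computable in linear space, with a bound for the length
-/

namespace Pool.Agent.Helper31.SB

open Pool.Agent.Helper65.LinSpace Pool.Agent.Helper78.Mpc Finset
open Pool.Agent.Helper31.DLS

/-- The bound for the queries. -/
def qB (M : ℕ) : ℕ := 2 * 2 ^ Nat.log 2 M

theorem qB_eq (M : ℕ) : qB M = 2 ^ (Nat.log 2 M + 1) := by
  unfold qB
  rw [pow_succ]
  ring

/-- The number of letters. -/
def cnt (F0 F1 : ℕ → ℕ) (M x : ℕ) : ℕ := ∑ i ∈ range (Nat.log 2 M + 1),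
  lt01 0 (F0 (queryN (qB M) i x) + F1 (queryN (qB M) i x))

/-- The number of the value. -/
def fnB (F0 F1 : ℕ → ℕ) (M x : ℕ) : ℕ := ifz x 0 (ifz (lt01 (Nat.log 2 M) (cnt F0 F1 M x))
  (tab 2 (cnt F0 F1 M x) (fun i => F1 (queryN (qB M) i x)) + 2 ^ cnt F0 F1 M x) 0)

section

variable {α : Type} [Ctx α]

theorem ls_qB {M : α → ℕ} (h : LS M) : LS (fun a => qB (M a)) := by
  unfold qB
  fun_prop

theorem ls_qry {F : ℕ → ℕ} (hF : LS F) {M x : α → ℕ} (hM : LS M) (hx : LS x) :
    LS (fun z : α × ℕ => F (queryN (qB (M z.1)) z.2 (x z.1))) := by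
  have h1 : LS (fun z : α × ℕ => M z.1) := LS.comp (g := M) hM LS.fst
  have h2 : LS (fun z : α × ℕ => x z.1) := LS.comp (g := x) hx LS.fst
  have h3 := ls_qB h1
  have h4 : LS (fun z : α × ℕ => queryN (qB (M z.1)) z.2 (x z.1)) := by fun_prop
  exact LS.comp (g := F) hF h4

theorem cnt_le (F0 F1 : ℕ → ℕ) (M x : ℕ) : cnt F0 F1 M x ≤ Nat.log 2 M + 1 := by
  unfold cnt
  refine (sum_le_sum (g := fun _ => 1) fun i _ => ?_).trans (by simp)
  unfold lt01
  split_ifs <;> omega

theorem ls_cnt {F0 F1 : ℕ → ℕ} (h0 : LS F0) (h1 : LS F1) {M x : α → ℕ} (hM : LS M)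
    (hx : LS x) : LS (fun a => cnt F0 F1 (M a) (x a)) := by
  unfold cnt
  refine LS.sum_le (N := fun a => Nat.log 2 (M a) + 1) (B := fun _ => 1)
    (f := fun a i => lt01 0 (F0 (queryN (qB (M a)) i (x a)) + F1 (queryN (qB (M a)) i (x a))))
    (LS.lt01 (LS.const 0) (LS.add (ls_qry h0 hM hx) (ls_qry h1 hM hx))) (by fun_prop)
    (LS.const 1) ?_
  intro a i _
  unfold lt01
  split_ifs <;> omega

theorem pow_cnt (F0 F1 : ℕ → ℕ) (M x : ℕ) : 2 ^ cnt F0 F1 M x ≤ qB M := by
  rw [qB_eq]
  exact Nat.pow_le_pow_right (by norm_num) (cnt_le F0 F1 M x)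

theorem ls_fnB {F0 F1 : ℕ → ℕ} (h0 : LS F0) (h1 : LS F1) (hl : ∀ x, F1 x < 2) {M x : α → ℕ}
    (hM : LS M) (hx : LS x) : LS (fun a => fnB F0 F1 (M a) (x a)) := by
  have hc := ls_cnt h0 h1 hM hx
  have hB := ls_qB hM
  have e1 : LS (fun a => tab 2 (cnt F0 F1 (M a) (x a))
      (fun i => F1 (queryN (qB (M a)) i (x a)))) :=
    LS.tab (q := fun _ => 2) (m := fun a => cnt F0 F1 (M a) (x a)) (C := fun a => qB (M a))
      (d := fun a i => F1 (queryN (qB (M a)) i (x a))) (ls_qry h1 hM hx) (LS.const 2) hc hB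
      (fun a i _ => hl _) fun a => pow_cnt F0 F1 (M a) (x a)
  have e2 : LS (fun a => 2 ^ cnt F0 F1 (M a) (x a)) :=
    LS.pow_of_le (f := fun _ => 2) (LS.const 2) hc hB fun a => pow_cnt F0 F1 (M a) (x a)
  unfold fnB
  exact LS.ifz hx (LS.const 0) (LS.ifz (LS.lt01 (by fun_prop) hc) (LS.add e1 e2) (LS.const 0))

end

theorem query_inj : ∀ (i i' : ℕ) (w w' : List Bool), List.replicate i true ++ false :: w =
    List.replicate i' true ++ false :: w' → i = i' ∧ w = w' := by
  intro i
  induction i with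
  | zero =>
    intro i' w w' h
    rcases i' with _ | i'
    · simpa using h
    · simp [List.replicate_succ] at h
  | succ i ih =>
    intro i' w w' h
    rcases i' with _ | i'
    · simp [List.replicate_succ] at h
    · simp only [List.replicate_succ, List.cons_append, List.cons.injEq, true_and] at h
      obtain ⟨h1, h2⟩ := ih i' w w' h
      exact ⟨by omega, h2⟩

theorem fnB_spec {F0 F1 : ℕ → ℕ} {f : List Bool → List Bool}
    (hl0 : ∀ x, F0 x < 2) (hl1 : ∀ x, F1 x < 2)
    (h0 : ∀ i w, F0 (num (List.replicate i true ++ false :: w)) = 1 ↔ (f w)[i]? = some false)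
    (h1 : ∀ i w, F1 (num (List.replicate i true ++ false :: w)) = 1 ↔ (f w)[i]? = some true)
    (M : ℕ) (w : List Bool) :
    fnB F0 F1 M (num w) = if (f w).length ≤ Nat.log 2 M then num (f w) else 0 := by
  unfold fnB
  rw [ifz_ne (num_pos w).ne']
  have hqn : ∀ i ≤ Nat.log 2 M, queryN (qB M) i (num w) =
      num (List.replicate i true ++ false :: w) := by
    intro i hi
    refine queryN_num ?_ w
    rw [qB_eq]
    exact Nat.pow_le_pow_right (by norm_num) (by omega)
  have hu0 : ∀ i ≤ Nat.log 2 M, F0 (queryN (qB M) i (num w)) = 1 ↔ (f w)[i]? = some false := by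
    intro i hi
    rw [hqn i hi, h0]
  have hu1 : ∀ i ≤ Nat.log 2 M, F1 (queryN (qB M) i (num w)) = 1 ↔ (f w)[i]? = some true := by
    intro i hi
    rw [hqn i hi, h1]
  have hcnt : cnt F0 F1 M (num w) = min (f w).length (Nat.log 2 M + 1) := by
    unfold cnt
    refine sum_lt_ind (min_le_right _ _) fun i hi => ?_
    have a0 := hu0 i (by omega)
    have a1 := hu1 i (by omega)
    have b0 := hl0 (queryN (qB M) i (num w))
    have b1 := hl1 (queryN (qB M) i (num w))
    by_cases h : i < (f w).length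
    · rw [if_pos (by omega), lt01, if_pos]
      rw [List.getElem?_eq_getElem h] at a0 a1
      rcases hb : (f w)[i] with _ | _
      · rw [hb] at a0
        have := a0.2 rfl
        omega
      · rw [hb] at a1
        have := a1.2 rfl
        omega
    · rw [if_neg (by omega), lt01, if_neg]
      rw [List.getElem?_eq_none (by omega)] at a0 a1
      have c0 : F0 (queryN (qB M) i (num w)) ≠ 1 := fun h => by simpa using a0.1 h
      have c1 : F1 (queryN (qB M) i (num w)) ≠ 1 := fun h => by simpa using a1.1 h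
      omega
  rw [hcnt]
  by_cases h : (f w).length ≤ Nat.log 2 M
  · rw [if_pos h, lt01, if_neg (by omega), ifz_zero, min_eq_left (by omega)]
    refine (num_eq_tab (f w) _ fun i hi => ?_).symm
    have a1 := hu1 i (by omega)
    have b1 := hl1 (queryN (qB M) i (num w))
    rw [List.getElem?_eq_getElem hi] at a1
    rcases hb : (f w)[i] with _ | _
    · rw [hb] at a1
      have c1 : F1 (queryN (qB M) i (num w)) ≠ 1 := fun h => by simpa using a1.1 h
      simp only [Bool.toNat_false]
      omega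
    · rw [hb] at a1
      simp only [Bool.toNat_true]
      exact a1.2 rfl
  · rw [if_neg h, lt01, if_pos (by omega), ifz_ne one_ne_zero]

/-- **Functions on words in linear space are linear-space functions on numbers**; values which are
longer than `log₂ M` are replaced by `0`. -/
theorem lincomp_bd {f : List Bool → List Bool} (hf : LinComp f) :
    ∃ F : ℕ → ℕ → ℕ, LS (fun z : ℕ × ℕ => F z.1 z.2) ∧ (∀ M, F M 0 = 0) ∧
      ∀ (M : ℕ) (w : List Bool),
        F M (num w) = if (f w).length ≤ Nat.log 2 M then num (f w) else 0 := by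
  obtain ⟨F0, hF0, hl0, h0⟩ := dls (hf false)
  obtain ⟨F1, hF1, hl1, h1⟩ := dls (hf true)
  have hmem : ∀ (i : ℕ) (w : List Bool) (b : Bool), (List.replicate i true ++ false :: w) ∈
      {u : List Bool | ∃ (i : ℕ) (w : List Bool), u = List.replicate i true ++ false :: w ∧
        (f w)[i]? = some b} ↔ (f w)[i]? = some b := by
    intro i w b
    constructor
    · rintro ⟨i', w', he, h⟩
      obtain ⟨h2, h3⟩ := query_inj i i' w w' he
      subst h2
      subst h3
      exact h
    · intro h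
      exact ⟨i, w, rfl, h⟩
  refine ⟨fnB F0 F1, ls_fnB hF0 hF1 hl1 LS.fst LS.snd, fun M => ifz_zero _ _,
    fnB_spec hl0 hl1 (fun i w => (h0 _).trans (hmem i w false))
      fun i w => (h1 _).trans (hmem i w true)⟩

end Pool.Agent.Helper31.SB
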