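import Pool.Agent.Helper31.SB.Num

/-!
# Machines with reading heads as machines with blocks: linear space
-/

namespace Pool.Agent.Helper31.SB

open Pool.Agent.Helper65.LinSpace Pool.Agent.Helper78.Mpc Pool.Agent.Helper28.Ram Finset
open Pool.Agent.Helper92.RE (LD)
open Pool.Agent.Helper65.BR (bvalN lwN)
open Pool.Agent.Helper81.RP (wd num_wd wd_num hd tl ls_hd ls_tl hd_eq tl_eq ls_pair)

theorem pR_pos (P : ℕ) : 0 < pR P := by
  unfold pR
  omega

theorem pA_pos (P : ℕ) : 0 < pA P := by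
  unfold pA
  positivity

theorem pow_le_R (P e : ℕ) : 2 ^ min e (Nat.log 2 (pR P)) ≤ pR P :=
  (Nat.pow_le_pow_right (by norm_num) (min_le_right _ _)).trans
    (Nat.pow_log_le_self 2 (pR_pos P).ne')

theorem pk_pb (P : ℕ) : pk P * pb P ≤ Nat.log 2 (pR P) := by
  unfold pb
  by_cases h : pk P * P.unpair.2.unpair.2 ≤ Nat.log 2 (pR P)
  · rw [le01, if_pos h, ifz_ne one_ne_zero]
    exact h
  · rw [le01, if_neg h, ifz_zero]
    omega

theorem pA_pb (P : ℕ) : pA P ^ pb P ≤ pR P := by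
  unfold pA
  rw [← pow_mul]
  exact (Nat.pow_le_pow_right (by norm_num) (pk_pb P)).trans
    (Nat.pow_log_le_self 2 (pR_pos P).ne')

section

variable {α : Type} [Ctx α]

theorem ls_pR {P : α → ℕ} (h : LS P) : LS (fun a => pR (P a)) := by
  unfold pR
  fun_prop

theorem ls_pn {P : α → ℕ} (h : LS P) : LS (fun a => pn (P a)) := by
  unfold pn
  fun_prop

theorem ls_pk {P : α → ℕ} (h : LS P) : LS (fun a => pk (P a)) := by
  have h1 := ls_pR h
  unfold pk
  exact LS.min (by fun_prop) (by fun_prop)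

theorem ls_pb {P : α → ℕ} (h : LS P) : LS (fun a => pb (P a)) := by
  have h1 := ls_pR h
  have h2 := ls_pk h
  have h3 : LS (fun a => (P a).unpair.2.unpair.2) := by fun_prop
  unfold pb
  exact LS.ifz (LS.le01 (LS.mul h2 h3) (LS.log2 h1)) (LS.const 0) h3

theorem ls_pA {P : α → ℕ} (h : LS P) : LS (fun a => pA (P a)) := by
  have h1 := ls_pR h
  have h2 := ls_pk h
  unfold pA
  exact LS.pow_of_le (f := fun _ => 2) (LS.const 2) h2 h1 fun a => pow_le_R (P a) _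

theorem ls_bvalN {v : α → ℕ} (h : LS v) : LS (fun a => bvalN (v a)) := by
  unfold bvalN
  fun_prop

theorem ls_lwN {v : α → ℕ} (h : LS v) : LS (fun a => lwN (v a)) := by
  unfold lwN
  fun_prop

theorem ls_accN {v : α → ℕ} (h : LS v) : LS (fun a => accN (v a)) := by
  unfold accN
  fun_prop

theorem ls_mk {P f l q T1 T2 : α → ℕ} (hP : LS P) (hf : LS f) (hl : LS l) (hq : LS q)
    (h1 : LS T1) (h2 : LS T2) : LS (fun a => mk (P a) (f a) (l a) (q a) (T1 a) (T2 a)) := by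
  have e1 := ls_pair hf hl
  have e2 := ls_pair e1 hq
  have e3 := ls_pair h1 h2
  have e4 := ls_pair e2 e3
  have e5 := ls_pair hP e4
  unfold mk
  exact LS.add (LS.const 1) e5

theorem ls_stn {P f l q T1 T2 : α → ℕ} (hP : LS P) (hf : LS f) (hl : LS l) (hq : LS q)
    (h1 : LS T1) (h2 : LS T2) : LS (fun a => stn (P a) (f a) (l a) (q a) (T1 a) (T2 a)) := by
  unfold stn
  exact LS.add (ls_accN hq) (LS.mul (LS.const 2) (ls_mk hP hf hl hq h1 h2))

theorem ls_sP {X : α → ℕ} (h : LS X) : LS (fun a => sP (X a)) := by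
  unfold sP
  fun_prop

theorem ls_sf {X : α → ℕ} (h : LS X) : LS (fun a => sf (X a)) := by
  unfold sf
  fun_prop

theorem ls_sl {X : α → ℕ} (h : LS X) : LS (fun a => sl (X a)) := by
  unfold sl
  fun_prop

theorem ls_sq {X : α → ℕ} (h : LS X) : LS (fun a => sq (X a)) := by
  unfold sq
  fun_prop

theorem ls_s1 {X : α → ℕ} (h : LS X) : LS (fun a => s1 (X a)) := by
  unfold s1
  fun_prop

theorem ls_s2 {X : α → ℕ} (h : LS X) : LS (fun a => s2 (X a)) := by
  unfold s2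
  fun_prop

theorem ls_at {g : α → ℕ → ℕ} (hg : LS (fun z : α × ℕ => g z.1 z.2)) (k : ℕ) :
    LS (fun a => g a k) :=
  LS.comp (g := fun z : α × ℕ => g z.1 z.2) (f := fun a => (a, k)) hg
    (LS.prodMk LS.id (LS.const k))

theorem ls_fm {g : α → ℕ → ℕ} (hg : LS (fun z : α × ℕ => g z.1 z.2)) (k : ℕ) :
    LS (fun a => fm (g a) k) := by
  induction k with
  | zero => exact LS.const 0
  | succ k ih =>
    have h1 := ls_at hg k
    show LS (fun a => ifz (k - fm (g a) k) (ifz (g a k) k (k + 1)) (fm (g a) k))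
    exact LS.ifz (LS.sub (LS.const k) ih) (LS.ifz h1 (LS.const _) (LS.const _)) ih

theorem ls_pr {g : α → ℕ → ℕ} (hg : LS (fun z : α × ℕ => g z.1 z.2)) (k : ℕ) :
    LS (fun a => pr (g a) k) := by
  induction k with
  | zero => exact LS.const 1
  | succ k ih => exact LS.mul ih (ls_at hg k)

theorem ls_nl {g : α → ℕ → ℕ} (hg : LS (fun z : α × ℕ => g z.1 z.2)) (k : ℕ) :
    LS (fun a => nl (g a) k) := by
  induction k with
  | zero => exact LS.const 1
  | succ k ih => exact LS.catN ih (LS.sdN (ls_at hg k))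

variable (J : SC)

theorem ls_c2 {F : ℕ → ℕ → ℕ} (hF : LS (fun z : ℕ × ℕ => F z.1 z.2)) {x y : α → ℕ} (hx : LS x)
    (hy : LS y) : LS (fun a => F (x a) (y a)) :=
  LS.comp (g := fun z : ℕ × ℕ => F z.1 z.2) (f := fun a => (x a, y a)) hF (LS.prodMk hx hy)

theorem ls_us {P q i : α → ℕ} (hP : LS P) (hq : LS q) (hi : LS i) :
    LS (fun a => us J (P a) (q a) (i a)) := by
  unfold us
  exact ls_c2 J.lU (ls_pR hP) (LS.catN (LS.sdN (LS.bitsN hi)) hq)

theorem ls_ps {P q i : α → ℕ} (hP : LS P) (hq : LS q) (hi : LS i) :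
    LS (fun a => ps J (P a) (q a) (i a)) := by
  unfold ps
  exact ls_c2 J.lP (ls_pR hP) (LS.catN (LS.sdN (LS.bitsN hi)) hq)

theorem ls_cl {P q i : α → ℕ} (hP : LS P) (hq : LS q) (hi : LS i) :
    LS (fun a => cl J (P a) (q a) (i a)) := by
  unfold cl
  exact ls_bvalN (ls_ps J hP hq hi)

theorem ls_bn {P q i : α → ℕ} (hP : LS P) (hq : LS q) (hi : LS i) :
    LS (fun a => bn J (P a) (q a) (i a)) := by
  unfold bn
  exact ls_pair (ls_us J hP hq hi) (LS.div (ls_cl J hP hq hi) (ls_pb hP))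

theorem ls_so {P q i : α → ℕ} (hP : LS P) (hq : LS q) (hi : LS i) :
    LS (fun a => so J (P a) (q a) (i a)) := by
  unfold so
  exact LS.add (LS.mul (LS.const 2) hi)
    (LS.mod (LS.div (ls_cl J hP hq hi) (ls_pb hP)) (LS.const 2))

theorem ls_hk {P q i : α → ℕ} (hP : LS P) (hq : LS q) (hi : LS i) :
    LS (fun a => hk J (P a) (q a) (i a)) := by
  unfold hk
  exact LS.mul (LS.mul (LS.lt01 (LS.const 0) (ls_us J hP hq hi))
    (LS.lt01 (LS.const 0) (ls_ps J hP hq hi))) (LS.lt01 (ls_bn J hP hq hi) (ls_pR hP))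

theorem ls_ld {P q T i : α → ℕ} (hP : LS P) (hq : LS q) (hT : LS T) (hi : LS i) :
    LS (fun a => ld J (P a) (q a) (T a) (i a)) := by
  unfold ld
  exact LS.eq01 (LS.dig (ls_pR hP) hT (ls_so J hP hq hi)) (ls_bn J hP hq hi)

theorem ls_f1 {x : α → ℕ} (h : LS x) : LS (fun z : α × ℕ => x z.1) :=
  LS.comp (g := x) h LS.fst

theorem ls_ms {P q T : α → ℕ} (hP : LS P) (hq : LS q) (hT : LS T) :
    LS (fun a => ms J (P a) (q a) (T a)) := by
  unfold ms
  exact ls_fm (g := fun a i => ld J (P a) (q a) (T a) i)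
    (ls_ld J (ls_f1 hP) (ls_f1 hq) (ls_f1 hT) LS.snd) J.K

theorem ls_ja {P q : α → ℕ} (hP : LS P) (hq : LS q) : LS (fun a => ja J (P a) (q a)) := by
  unfold ja
  exact ls_bvalN (ls_c2 J.lA (ls_pR hP) hq)

theorem ls_vd {P q T i : α → ℕ} (hP : LS P) (hq : LS q) (hT : LS T) (hi : LS i) :
    LS (fun a => vd J (P a) (q a) (T a) (i a)) := by
  unfold vd
  exact LS.dig (ls_pA hP) (LS.dig (ls_pR hP) hT (ls_so J hP hq hi))
    (LS.mod (ls_cl J hP hq hi) (ls_pb hP))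

theorem ls_vk {P q T i : α → ℕ} (hP : LS P) (hq : LS q) (hT : LS T) (hi : LS i) :
    LS (fun a => vk J (P a) (q a) (T a) (i a)) := by
  unfold vk
  exact LS.lt01 (ls_vd J hP hq hT hi) (LS.sub (ls_pA hP) (LS.const 1))

theorem ls_ip {P q T x y : α → ℕ} (hP : LS P) (hq : LS q) (hT : LS T) (hx : LS x)
    (hy : LS y) : LS (fun a => ip J (P a) (q a) (T a) (x a) (y a)) := by
  have h1 : LS (fun a => nl (fun i => vd J (P a) (q a) (T a) i + 1) J.K) :=
    ls_nl (g := fun a i => vd J (P a) (q a) (T a) i + 1)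
      (LS.succ (ls_vd J (ls_f1 hP) (ls_f1 hq) (ls_f1 hT) LS.snd)) J.K
  unfold ip
  exact LS.catN (LS.sdN hq) (LS.catN (ls_lwN hx) (LS.catN (ls_lwN hy) h1))

theorem ls_wc {P q U z d : α → ℕ} (hP : LS P) (hq : LS q) (hU : LS U) (hz : LS z) (hd : LS d) :
    LS (fun a => wc J (P a) (q a) (U a) (z a) (d a)) := by
  have h1 := ls_pA hP
  have h2 := LS.sub h1 (LS.const 1)
  have h3 := ls_c2 J.lW (ls_pR hP) (LS.catN (LS.sdN hq) (LS.catN (LS.sdN hU)
    (LS.catN (LS.sdN (LS.bitsN hz)) (LS.succ hd))))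
  unfold wc
  exact LS.ifz (LS.sub h2 hd) h2 (LS.ifz (LS.mul (LS.lt01 (LS.const 0) h3) (LS.lt01 h3 h1)) h2
    (LS.sub h3 (LS.const 1)))

theorem ls_mU {X : α → ℕ} (h : LS X) : LS (fun a => mU (X a)) := by
  have h1 : LS (fun a => (X a).unpair.1) := by fun_prop
  unfold mU
  exact LS.ifz h1 (LS.const 1) h1

theorem ifz_lt {x a b R : ℕ} (ha : a < R) (hb : b < R) : ifz x a b < R := by
  unfold ifz
  split_ifs
  · exact ha
  · exact hb

theorem wc_lt (P q U z d : ℕ) : wc J P q U z d < pA P := by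
  have h1 := pA_pos P
  unfold wc
  refine ifz_lt (by omega) ?_
  by_cases h : lt01 0 (J.gW (pR P) (catN (sdN q) (catN (sdN U) (catN (sdN (bitsN z)) (d + 1))))) *
      lt01 (J.gW (pR P) (catN (sdN q) (catN (sdN U) (catN (sdN (bitsN z)) (d + 1))))) (pA P) = 0
  · rw [h, ifz_zero]
    omega
  · rw [ifz_ne h]
    rw [← Ne, mul_ne_zero_iff] at h
    have h2 := h.2
    unfold lt01 at h2
    split_ifs at h2 with h3
    · omega
    · exact absurd rfl h2

theorem ls_nb {P q X V : α → ℕ} (hP : LS P) (hq : LS q) (hX : LS X) (hV : LS V) :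
    LS (fun a => nb J (P a) (q a) (X a) (V a)) := by
  have h1 := ls_pA hP
  have h2 := ls_pb hP
  have h3 : LS (fun a => (X a).unpair.2) := by fun_prop
  have h4 : LS (fun z : α × ℕ => (X z.1).unpair.2 * pb (P z.1) + z.2) :=
    LS.add (LS.mul (ls_f1 h3) (ls_f1 h2)) LS.snd
  have h5 : LS (fun z : α × ℕ => dig (pA (P z.1)) (V z.1) z.2) :=
    LS.dig (ls_f1 h1) (ls_f1 hV) LS.snd
  have h6 := ls_wc J (ls_f1 hP) (ls_f1 hq) (ls_f1 (ls_mU hX)) h4 h5
  unfold nb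
  exact LS.tab (q := fun a => pA (P a)) (m := fun a => pb (P a)) (C := fun a => pR (P a))
    (d := fun a o => wc J (P a) (q a) (mU (X a)) ((X a).unpair.2 * pb (P a) + o)
      (dig (pA (P a)) (V a) o)) h6 h1 h2 (ls_pR hP) (fun a i _ => wc_lt J _ _ _ _ _)
    fun a => pA_pb (P a)

theorem tab_lt {q m : ℕ} {d : ℕ → ℕ} (h : ∀ i < m, d i < q) : tab q m d < q ^ m := by
  induction m with
  | zero => exact Nat.one_pos
  | succ m ih =>
    rw [tab_succ, pow_succ]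
    have h1 := ih fun i hi => h i (by omega)
    have h2 := h m (Nat.lt_succ_self m)
    have h3 : d m * q ^ m + q ^ m ≤ q * q ^ m := by
      rw [← Nat.succ_mul]
      exact Nat.mul_le_mul_right _ h2
    nlinarith

theorem nb_lt (P q X V : ℕ) : nb J P q X V < pR P :=
  (tab_lt fun i _ => wc_lt J _ _ _ _ _).trans_le (pA_pb P)

theorem ls_tabR {P : α → ℕ} (hP : LS P) {d : α → ℕ → ℕ}
    (hd : LS (fun p : α × ℕ => d p.1 p.2)) (hd' : ∀ a i, d a i < pR (P a)) :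
    LS (fun a => tab (pR (P a)) (2 * J.K) (d a)) :=
  LS.tab (q := fun a => pR (P a)) (m := fun _ => 2 * J.K)
    (C := fun a => pR (P a) ^ (2 * J.K)) (d := d) hd (ls_pR hP) (LS.const _)
    (LS.pow_const (ls_pR hP) _) (fun a i _ => hd' a i) fun a => le_rfl

theorem ls_n2 {P q T1 T2 : α → ℕ} (hP : LS P) (hq : LS q) (h1 : LS T1) (h2 : LS T2) :
    LS (fun a => n2 J (P a) (q a) (T1 a) (T2 a)) := by
  have e1 : LS (fun z : α × ℕ => dig (pR (P z.1)) (T1 z.1) z.2) :=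
    LS.dig (ls_f1 (ls_pR hP)) (ls_f1 h1) LS.snd
  have e2 : LS (fun z : α × ℕ => dig (pR (P z.1)) (T2 z.1) z.2) :=
    LS.dig (ls_f1 (ls_pR hP)) (ls_f1 h2) LS.snd
  unfold n2
  exact ls_tabR J hP (d := fun a j => nb J (P a) (q a) (dig (pR (P a)) (T1 a) j)
    (dig (pR (P a)) (T2 a) j)) (ls_nb J (ls_f1 hP) (ls_f1 hq) e1 e2) fun a i => nb_lt J _ _ _ _

theorem ls_cg {P T s x : α → ℕ} (hP : LS P) (hT : LS T) (hs : LS s) (hx : LS x) :
    LS (fun a => cg J (P a) (T a) (s a) (x a)) := by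
  have e1 : LS (fun z : α × ℕ => dig (pR (P z.1)) (T z.1) z.2) :=
    LS.dig (ls_f1 (ls_pR hP)) (ls_f1 hT) LS.snd
  have e3 : LS (fun z : α × ℕ => eq01 z.2 (s z.1)) := LS.eq01 LS.snd (ls_f1 hs)
  have e4 : LS (fun z : α × ℕ => x z.1 % pR (P z.1)) := LS.mod (ls_f1 hx) (ls_pR (ls_f1 hP))
  unfold cg
  exact ls_tabR J hP (d := fun a j => ifz (eq01 j (s a)) (dig (pR (P a)) (T a) j)
    (x a % pR (P a))) (LS.ifz e3 e1 e4) fun a i => ifz_lt (dig_lt (pR_pos _) _ _)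
      (Nat.mod_lt _ (pR_pos _))

theorem ls_stN {P : α → ℕ} (hP : LS P) : LS (fun a => stN J (P a)) := by
  unfold stN
  exact ls_stn hP (LS.const _) (LS.const _) (LS.const _) (LS.const _) (LS.const _)

theorem ls_lt3 {x y z : α → ℕ} (hx : LS x) (hy : LS y) (hz : LS z) :
    LS (fun a => J.D.lt (x a) (y a) (z a)) :=
  LS.comp (g := fun z : ℕ × ℕ × ℕ => J.D.lt z.1 z.2.1 z.2.2) (f := fun a => (x a, y a, z a))
    J.D.ls_lt (LS.prodMk hx (LS.prodMk hy hz))

theorem ls_nx3 {P l q T1 T2 b v : α → ℕ} (hP : LS P) (hl : LS l) (hq : LS q) (h1 : LS T1)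
    (h2 : LS T2) (hb : LS b) (hv : LS v) :
    LS (fun a => nx3 J (P a) (l a) (q a) (T1 a) (T2 a) (b a) (v a)) := by
  have hR := ls_pR hP
  have hI := ls_ip J hP hq h2 (ls_lt3 J (ls_pn hP) (ls_ja J hP hq) hl) hb
  have hN := ls_c2 J.lN hR hI
  have hm := ls_ms J hP hq h1
  have hs := ls_so J hP hq hm
  have hB := ls_bn J hP hq hm
  have e1 : LS (fun a => pr (hk J (P a) (q a)) J.K) :=
    ls_pr (g := fun a i => hk J (P a) (q a) i) (ls_hk J (ls_f1 hP) (ls_f1 hq) LS.snd) J.K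
  have e2 : LS (fun a => pr (vk J (P a) (q a) (T2 a)) J.K) :=
    ls_pr (g := fun a i => vk J (P a) (q a) (T2 a) i)
      (ls_vk J (ls_f1 hP) (ls_f1 hq) (ls_f1 h2) LS.snd) J.K
  have e3 := ls_stn hP (LS.const 2) (LS.const 1) hN h1 (ls_n2 J hP hN h1 h2)
  have e4 := ls_stn hP (LS.const 3) hl hq (ls_cg J hP h1 hs hB)
    (ls_cg J hP h2 hs (LS.sub hv (LS.const 1)))
  unfold nx3
  exact LS.ifz e1 (LS.const 1) (LS.ifz (LS.sub (LS.const _) hm)
    (LS.ifz e2 (LS.const 1) (LS.ifz hN (LS.const 1) e3)) e4)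

theorem ls_nx {σ a b v : α → ℕ} (hσ : LS σ) (ha : LS a) (hb : LS b) (hv : LS v) :
    LS (fun z => nx J (σ z) (a z) (b z) (v z)) := by
  have hX : LS (fun z => σ z / 2) := LS.div hσ (LS.const 2)
  have hP := ls_sP hX
  have hf := ls_sf hX
  have hl := ls_sl hX
  have hq := ls_sq hX
  have h1 := ls_s1 hX
  have h2 := ls_s2 hX
  have e1 := ls_stn hP (LS.const 1) (LS.const 0) hq h1 h2
  have e2 := ls_stn hP (LS.const 2) (LS.const 0) hq h1 h2
  have e3 := ls_stn hP (LS.const 3) ha hq h1 h2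
  have e4 := ls_nx3 J hP hl hq h1 h2 hb hv
  have e5 := ls_pb hP
  have e7 := ls_pR hP
  have e8 := ls_pn hP
  have e9 := ls_c2 J.lA e7 hq
  unfold nx
  exact LS.ifz hX (LS.const 1) (LS.ifz hf
    (LS.ifz (LS.mul (LS.lt01 (LS.const 0) e5) (LS.eq01 ha (LS.const 0))) (LS.const 1) e1)
    (LS.ifz (LS.sub hf (LS.const 1)) (LS.ifz (LS.add (LS.eq01 e8 (LS.const 0)) ha) (LS.const 1) e2)
      (LS.ifz (LS.sub hf (LS.const 2)) (LS.ifz e9 (LS.const 1) e3) e4)))

theorem ls_adN {σ : α → ℕ} (hσ : LS σ) : LS (fun z => adN J (σ z)) := by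
  have hX : LS (fun z => σ z / 2) := LS.div hσ (LS.const 2)
  have hP := ls_sP hX
  have hf := ls_sf hX
  have hq := ls_sq hX
  have e8 := ls_pn hP
  have e9 := ls_ja J hP hq
  have e10 := ls_c2 J.D.ls_pos e8 e9
  unfold adN
  exact LS.ifz hf e8 (LS.ifz (LS.sub hf (LS.const 1)) (LS.sub e8 (LS.const 1))
    (LS.ifz (LS.sub hf (LS.const 2)) e10 e9))

theorem ls_blN {σ : α → ℕ} (hσ : LS σ) : LS (fun z => blN J (σ z)) := by
  have hX : LS (fun z => σ z / 2) := LS.div hσ (LS.const 2)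
  have hP := ls_sP hX
  have hf := ls_sf hX
  have hq := ls_sq hX
  have h1 := ls_s1 hX
  have hm := ls_ms J hP hq h1
  have hB := ls_bn J hP hq hm
  unfold blN
  exact LS.ifz (LS.sub hf (LS.const 2)) (LS.const 1) (LS.ifz (LS.sub (LS.const _) hm) (LS.const 1)
    (LS.add (LS.const 3) (LS.mul (LS.const 2) hB)))

theorem ls_wrN {σ x c : α → ℕ} (hσ : LS σ) (hx : LS x) (hc : LS c) :
    LS (fun z => wrN J (σ z) (x z) (c z)) := by
  have hX : LS (fun z => σ z / 2) := LS.div hσ (LS.const 2)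
  have hP := ls_sP hX
  have hf := ls_sf hX
  have hl := ls_sl hX
  have hq := ls_sq hX
  have e1 : LS (fun z => (x z - 3) / 2) := LS.div (LS.sub hx (LS.const 3)) (LS.const 2)
  have e2 := ls_nb J hP hq e1 (LS.sub hc (LS.const 1))
  unfold wrN
  exact LS.ifz hX hc (LS.ifz (LS.mul (LS.mod hx (LS.const 2)) (LS.lt01 (LS.const 1) hx)) hc
    (LS.ifz (LS.mul (LS.eq01 hf (LS.const 2)) hl) hc (LS.succ e2)))

end

end Pool.Agent.Helper31.SB
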