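import Pool.Agent.Helper31.SB.Lin
import Pool.Agent.Helper31.Conv.Run

/-!
# Machines with reading heads as machines with blocks: the machine
-/

namespace Pool.Agent.Helper31.SB

open Pool.Agent.Helper65.LinSpace Pool.Agent.Helper78.Mpc Pool.Agent.Helper28.Ram Finset
open Pool.Agent.Helper92.RE (LD)
open Pool.Agent.Helper65.OH (letW)
open Pool.Agent.Helper65.BR (bvalN lwN BM Reader)
open Pool.Agent.Helper81.RP (wd wf num_wd wd_num hd tl ls_hd ls_tl hd_eq tl_eq ls_pair linComp_wf
  lett)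
open Pool.Agent.Helper31.Conv (bits_wd wd_pred)
open Pool.Agent.Helper31.TMS (bval_bits)

/-- The code of the letter, from the number of the word `letW`. -/
def cw (r : ℕ) : ℕ := r - r / 2

theorem letW_num (a : Option Bool) (v : List Bool) :
    cw (num (letW a ++ v) % 4) = codeO a ∧ num (letW a ++ v) / 4 = num v := by
  have h : num (letW a ++ v) = a.isSome.toNat + 2 * ((a == some true).toNat + 2 * num v) := rfl
  rw [h]
  rcases a with _ | _ | _
  · refine ⟨?_, ?_⟩
    · show cw ((0 + 2 * (0 + 2 * num v)) % 4) = 0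
      rw [show (0 + 2 * (0 + 2 * num v)) % 4 = 0 by omega]
      rfl
    · show (0 + 2 * (0 + 2 * num v)) / 4 = num v
      omega
  · refine ⟨?_, ?_⟩
    · show cw ((1 + 2 * (0 + 2 * num v)) % 4) = 1
      rw [show (1 + 2 * (0 + 2 * num v)) % 4 = 1 by omega]
      rfl
    · show (1 + 2 * (0 + 2 * num v)) / 4 = num v
      omega
  · refine ⟨?_, ?_⟩
    · show cw ((1 + 2 * (1 + 2 * num v)) % 4) = 2
      rw [show (1 + 2 * (1 + 2 * num v)) % 4 = 3 by omega]
      rfl
    · show (1 + 2 * (1 + 2 * num v)) / 4 = num v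
      omega

theorem lwN_code (a : Option Bool) : lwN (codeO a) = num (letW a) := by
  rcases a with _ | _ | _ <;> rfl

theorem lett_code (a : Option Bool) : lett a = codeO a := by
  rcases a with _ | _ | _ <;> rfl

theorem num_eq_bval (u : List Bool) : num u = bval u + 2 ^ u.length := by
  induction u with
  | nil => rfl
  | cons b u ih =>
    show b.toNat + 2 * num u = b.toNat + 2 * bval u + 2 ^ (u.length + 1)
    rw [ih, pow_succ]
    ring

theorem bvalN_num (u : List Bool) : bvalN (num u) = bval u := by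
  unfold bvalN
  rw [log_num, num_eq_bval]
  omega

theorem bval_lt (u : List Bool) : bval u < 2 ^ u.length := by
  induction u with
  | nil => exact Nat.one_pos
  | cons b u ih =>
    show b.toNat + 2 * bval u < 2 ^ (u.length + 1)
    have := toNat_le_one b
    rw [pow_succ]
    omega

theorem num_lt (u : List Bool) : num u < 2 ^ (u.length + 1) := by
  have := bval_lt u
  rw [num_eq_bval, pow_succ]
  omega

variable (J : SC)

attribute [local irreducible] hd tl

/-- The function `next` on numbers. -/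
def NX (u : ℕ) : ℕ := nx J (hd u) (cw (tl u % 4)) (cw (tl u / 4 % 4)) (tl u / 16)

/-- The function `write` on numbers. -/
def WR (u : ℕ) : ℕ := wrN J (hd u) (hd (tl u)) (tl (tl u))

theorem ls_NX : LS (NX J) := by
  have h1 : LS (fun u : ℕ => hd u) := ls_hd
  have h2 : LS (fun u : ℕ => tl u) := ls_tl
  have h3 : LS (fun u : ℕ => cw (tl u % 4)) := by
    unfold cw
    fun_prop
  have h4 : LS (fun u : ℕ => cw (tl u / 4 % 4)) := by
    unfold cw
    fun_prop
  have h5 : LS (fun u : ℕ => tl u / 16) := by fun_prop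
  exact ls_nx J h1 h3 h4 h5

theorem ls_WR : LS (WR J) := by
  have h1 : LS (fun u : ℕ => hd u) := ls_hd
  have h2 : LS (fun u : ℕ => tl u) := ls_tl
  have h3 : LS (fun u : ℕ => hd (tl u)) := LS.comp (g := hd) ls_hd h2
  have h4 : LS (fun u : ℕ => tl (tl u)) := LS.comp (g := tl) ls_tl h2
  exact ls_wrN J h1 h3 h4

theorem ls_ST : LS (stN J) := by
  have h : LS (fun u : ℕ => u) := LS.id
  exact ls_stN J h

theorem ls_AD : LS (fun σ => bitsN (adN J σ)) := by
  have h : LS (fun u : ℕ => u) := LS.id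
  exact LS.bitsN (ls_adN J h)

theorem ls_BL : LS (blN J) := by
  have h : LS (fun u : ℕ => u) := LS.id
  exact ls_blN J h

/-- The machine with blocks. -/
noncomputable def bm : BM where
  start := wf (stN J)
  addr := wf fun σ => bitsN (adN J σ)
  blk := wf (blN J)
  next := wf (NX J)
  write := wf (WR J)
  start_lin := linComp_wf (ls_ST J)
  addr_lin := linComp_wf (ls_AD J)
  blk_lin := linComp_wf (ls_BL J)
  next_lin := linComp_wf (ls_NX J)
  write_lin := linComp_wf (ls_WR J)

theorem stn_pos' (P f l q T1 T2 : ℕ) : 0 < stn P f l q T1 T2 := by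
  have := stn_pos P f l q T1 T2
  omega

theorem ifz_pos {x a b : ℕ} (ha : 0 < a) (hb : 0 < b) : 0 < ifz x a b := by
  unfold ifz
  split_ifs
  · exact ha
  · exact hb

theorem nx3_pos (P l q T1 T2 b v : ℕ) : 0 < nx3 J P l q T1 T2 b v := by
  unfold nx3
  exact ifz_pos Nat.one_pos (ifz_pos (ifz_pos Nat.one_pos (ifz_pos Nat.one_pos
    (stn_pos' _ _ _ _ _ _))) (stn_pos' _ _ _ _ _ _))

theorem nx_pos (σ a b v : ℕ) : 0 < nx J σ a b v := by
  unfold nx
  exact ifz_pos Nat.one_pos (ifz_pos (ifz_pos Nat.one_pos (stn_pos' _ _ _ _ _ _))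
    (ifz_pos (ifz_pos Nat.one_pos (stn_pos' _ _ _ _ _ _))
      (ifz_pos (ifz_pos Nat.one_pos (stn_pos' _ _ _ _ _ _)) (nx3_pos J _ _ _ _ _ _ _))))

theorem bm_start (p : List Bool) : (bm J).start p = wd (stN J (num p)) := by
  show wd (stN J (num p) - 1 + 1) = _
  rw [wd_pred (show 0 < stN J (num p) from stn_pos' _ _ _ _ _ _)]

theorem bm_addr {σ : ℕ} (hσ : 0 < σ) : bval ((bm J).addr (wd σ)) = adN J σ := by
  show bval (wd (bitsN (adN J (num (wd σ))) - 1 + 1)) = _
  rw [bits_wd, bval_bits, num_wd hσ]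

theorem bm_addr' {σ : ℕ} (hσ : 0 < σ) : (bm J).addr (wd σ) = (adN J σ).bits := by
  show wd (bitsN (adN J (num (wd σ))) - 1 + 1) = _
  rw [bits_wd, num_wd hσ]

theorem blN_pos (σ : ℕ) : 0 < blN J σ := by
  unfold blN ifz
  split_ifs <;> omega

theorem bm_blk {σ : ℕ} (hσ : 0 < σ) : (bm J).blk (wd σ) = wd (blN J σ) := by
  show wd (blN J (num (wd σ)) - 1 + 1) = _
  rw [wd_pred (blN_pos J _), num_wd hσ]

theorem bm_next {σ : ℕ} (hσ : 0 < σ) (w y v : List Bool) :
    (bm J).nx w y (wd σ) v =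
      wd (nx J σ (codeO w[adN J σ]?) (codeO y[adN J σ]?) (num v)) := by
  have h1 : (bm J).nx w y (wd σ) v = wd (NX J (num (sd (wd σ) ++
      (letW w[bval ((bm J).addr (wd σ))]? ++ (letW y[bval ((bm J).addr (wd σ))]? ++ v)))) - 1 + 1) :=
    rfl
  rw [h1, bm_addr J hσ]
  unfold NX
  rw [hd_eq, tl_eq, num_wd hσ, wd_pred (nx_pos J _ _ _ _)]
  set a := w[adN J σ]?
  set b := y[adN J σ]?
  have e1 := letW_num a (letW b ++ v)
  have e2 := letW_num b v
  rw [e1.1, e1.2, e2.1, show num (letW a ++ (letW b ++ v)) / 16 =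
    num (letW a ++ (letW b ++ v)) / 4 / 4 by omega, e1.2, e2.2]

theorem wrN_pos (σ x : ℕ) {c : ℕ} (hc : 0 < c) : 0 < wrN J σ x c := by
  unfold wrN
  exact ifz_pos hc (ifz_pos hc (ifz_pos hc (Nat.succ_pos _)))

theorem bm_write {σ : ℕ} (hσ : 0 < σ) (x c : List Bool) :
    (bm J).write (sd (wd σ) ++ (sd x ++ c)) = wd (wrN J σ (num x) (num c)) := by
  show wd (WR J (num (sd (wd σ) ++ (sd x ++ c))) - 1 + 1) = _
  unfold WR
  rw [hd_eq, tl_eq, hd_eq, tl_eq, num_wd hσ, wd_pred (wrN_pos J _ _ (num_pos c))]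

/-- The numbers of the functions of the machine `A`. -/
structure Cd {K : ℕ} (A : Reader K) : Prop where
  hK : J.K = K
  q0 : J.q0 = num A.start
  gA : ∀ (M : ℕ) (w : List Bool), J.gA M (num w) =
    if (A.addr w).length ≤ Nat.log 2 M then num (A.addr w) else 0
  gU : ∀ (M : ℕ) (w : List Bool), J.gU M (num w) =
    if (A.arr w).length ≤ Nat.log 2 M then num (A.arr w) else 0
  gP : ∀ (M : ℕ) (w : List Bool), J.gP M (num w) =
    if (A.pos w).length ≤ Nat.log 2 M then num (A.pos w) else 0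
  gN : ∀ (M : ℕ) (w : List Bool), J.gN M (num w) =
    if (A.next w).length ≤ Nat.log 2 M then num (A.next w) else 0
  gW : ∀ (M : ℕ) (w : List Bool), J.gW M (num w) =
    if (A.write w).length ≤ Nat.log 2 M then num (A.write w) else 0

theorem exists_sc {K : ℕ} (A : Reader K) (D : LD) : ∃ J : SC, J.D = D ∧ Cd J A := by
  obtain ⟨gA, a1, _, a3⟩ := lincomp_bd A.addr_lin
  obtain ⟨gU, u1, _, u3⟩ := lincomp_bd A.arr_lin
  obtain ⟨gP, p1, _, p3⟩ := lincomp_bd A.pos_lin
  obtain ⟨gN, n1, _, n3⟩ := lincomp_bd A.next_lin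
  obtain ⟨gW, w1, _, w3⟩ := lincomp_bd A.write_lin
  exact ⟨⟨K, num A.start, D, gA, gU, gP, gN, gW, a1, u1, p1, n1, w1⟩, rfl, rfl, rfl,
    a3, u3, p3, n3, w3⟩

/-! ### Recursion over a constant number -/

theorem fm_le (g : ℕ → ℕ) (k : ℕ) : fm g k ≤ k := by
  induction k with
  | zero => exact le_rfl
  | succ k ih =>
    show ifz (k - fm g k) (ifz (g k) k (k + 1)) (fm g k) ≤ k + 1
    unfold ifz
    split_ifs <;> omega

theorem fm_spec (g : ℕ → ℕ) (k : ℕ) : (∀ i < fm g k, g i ≠ 0) ∧ (fm g k < k → g (fm g k) = 0) := by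
  induction k with
  | zero => exact ⟨fun i hi => absurd hi (Nat.not_lt_zero i), fun h => absurd h (lt_irrefl 0)⟩
  | succ k ih =>
    have h1 := fm_le g k
    have e : fm g (k + 1) = ifz (k - fm g k) (ifz (g k) k (k + 1)) (fm g k) := rfl
    by_cases h2 : fm g k = k
    · rw [h2, Nat.sub_self, ifz_zero] at e
      rw [h2] at ih
      by_cases h3 : g k = 0
      · rw [h3, ifz_zero] at e
        rw [e]
        exact ⟨ih.1, fun _ => h3⟩
      · rw [ifz_ne h3] at e
        rw [e]
        refine ⟨fun i hi => ?_, fun h => absurd h (lt_irrefl _)⟩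
        rcases Nat.lt_succ_iff_lt_or_eq.1 hi with h | h
        · exact ih.1 i h
        · rw [h]
          exact h3
    · rw [ifz_ne (by omega)] at e
      rw [e]
      exact ⟨ih.1, fun _ => ih.2 (by omega)⟩

theorem fm_eq {g : ℕ → ℕ} {k : ℕ} (h : ∀ i < k, g i ≠ 0) : fm g k = k := by
  rcases (fm_le g k).lt_or_eq with h1 | h1
  · exact absurd ((fm_spec g k).2 h1) (h _ h1)
  · exact h1

theorem fm_eq' {g : ℕ → ℕ} {k i : ℕ} (hi : i < k) (h : ∀ j < i, g j ≠ 0) (h0 : g i = 0) :
    fm g k = i := by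
  have h1 := fm_spec g k
  rcases lt_trichotomy (fm g k) i with h2 | h2 | h2
  · exact absurd (h1.2 (h2.trans hi)) (h _ h2)
  · exact h2
  · exact absurd h0 (h1.1 i h2)

theorem pr_ne {g : ℕ → ℕ} {k : ℕ} : pr g k ≠ 0 ↔ ∀ i < k, g i ≠ 0 := by
  induction k with
  | zero => exact ⟨fun _ i hi => absurd hi (Nat.not_lt_zero i), fun _ => one_ne_zero⟩
  | succ k ih =>
    show pr g k * g k ≠ 0 ↔ _
    rw [mul_ne_zero_iff, ih]
    constructor
    · rintro ⟨h1, h2⟩ i hi
      rcases Nat.lt_succ_iff_lt_or_eq.1 hi with h | h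
      · exact h1 i h
      · rw [h]
        exact h2
    · intro h
      exact ⟨fun i hi => h i (by omega), h k (Nat.lt_succ_self k)⟩

theorem nl_eq {g : ℕ → ℕ} {v : ℕ → List Bool} {k : ℕ} (h : ∀ i < k, g i = num (v i)) :
    nl g k = num ((List.range k).flatMap fun i => sd (v i)) := by
  induction k with
  | zero => rfl
  | succ k ih =>
    show catN (nl g k) (sdN (g k)) = _
    rw [ih fun i hi => h i (by omega), h k (Nat.lt_succ_self k), sdN_num, catN_num,
      List.range_succ, List.flatMap_append, List.flatMap_singleton]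

theorem range_map (K : ℕ) : List.range K = List.map (fun i : Fin K => i.val) (List.finRange K) := by
  refine List.ext_getElem (by simp) fun i h1 h2 => ?_
  simp

theorem flatMap_fin {K : ℕ} (f : Fin K → List Bool) (g : ℕ → List Bool)
    (h : ∀ i : Fin K, g i = f i) : (List.range K).flatMap g = (List.finRange K).flatMap f := by
  rw [range_map, List.flatMap_map]
  refine congrArg (fun F => List.flatMap F (List.finRange K)) (funext fun i => ?_)
  exact h i

theorem tab_congr {q m : ℕ} {d d' : ℕ → ℕ} (h : ∀ i < m, d i = d' i) : tab q m d = tab q m d' :=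
  sum_congr rfl fun i hi => by rw [h i (mem_range.1 hi)]

end Pool.Agent.Helper31.SB
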