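import Pool.Agent.Helper31.SB.Fn
import Pool.Agent.Helper31.Conv.Dec
import Pool.Agent.Helper92.RE.Mach
import Pool.Agent.Helper65.BR.Num
import Pool.Agent.Helper65.BR.SDefs

/-!
# Machines with reading heads as machines with blocks: the functions on numbers
-/

namespace Pool.Agent.Helper31.SB

open Pool.Agent.Helper65.LinSpace Pool.Agent.Helper78.Mpc Pool.Agent.Helper28.Ram Finset
open Pool.Agent.Helper92.RE (LD)
open Pool.Agent.Helper65.BR (bvalN lwN)
open Pool.Agent.Helper81.RP (wd num_wd wd_num hd tl ls_hd ls_tl hd_eq tl_eq ls_pair)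

/-- The functions of a machine with reading heads, on numbers. The first argument is a bound: words
which are longer than its logarithm are replaced by `0`. -/
structure SC where
  /-- the number of heads -/
  K : ℕ
  /-- the number of the state at the start -/
  q0 : ℕ
  D : LD
  gA : ℕ → ℕ → ℕ
  gU : ℕ → ℕ → ℕ
  gP : ℕ → ℕ → ℕ
  gN : ℕ → ℕ → ℕ
  gW : ℕ → ℕ → ℕ
  lA : LS (fun z : ℕ × ℕ => gA z.1 z.2)
  lU : LS (fun z : ℕ × ℕ => gU z.1 z.2)
  lP : LS (fun z : ℕ × ℕ => gP z.1 z.2)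
  lN : LS (fun z : ℕ × ℕ => gN z.1 z.2)
  lW : LS (fun z : ℕ × ℕ => gW z.1 z.2)

/-! ### The parameters -/

/-- The bound. -/
def pR (P : ℕ) : ℕ := P.unpair.1.unpair.1 + 2

/-- The length of the input. -/
def pn (P : ℕ) : ℕ := P.unpair.1.unpair.2

/-- The logarithm of the base of the tables. -/
def pk (P : ℕ) : ℕ := min P.unpair.2.unpair.1 (Nat.log 2 (pR P))

/-- The number of cells of a block. -/
def pb (P : ℕ) : ℕ :=
  ifz (le01 (pk P * P.unpair.2.unpair.2) (Nat.log 2 (pR P))) 0 P.unpair.2.unpair.2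

/-- The base of the tables. -/
def pA (P : ℕ) : ℕ := 2 ^ pk P

/-! ### The states -/

/-- The number of a state without its first letter. -/
def mk (P f l q T1 T2 : ℕ) : ℕ :=
  1 + Nat.pair P (Nat.pair (Nat.pair (Nat.pair f l) q) (Nat.pair T1 T2))

def sP (X : ℕ) : ℕ := (X - 1).unpair.1
def sf (X : ℕ) : ℕ := (X - 1).unpair.2.unpair.1.unpair.1.unpair.1
def sl (X : ℕ) : ℕ := (X - 1).unpair.2.unpair.1.unpair.1.unpair.2
def sq (X : ℕ) : ℕ := (X - 1).unpair.2.unpair.1.unpair.2
def s1 (X : ℕ) : ℕ := (X - 1).unpair.2.unpair.2.unpair.1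
def s2 (X : ℕ) : ℕ := (X - 1).unpair.2.unpair.2.unpair.2

theorem mk_pos (P f l q T1 T2 : ℕ) : 0 < mk P f l q T1 T2 := by
  unfold mk
  omega

theorem sP_mk (P f l q T1 T2 : ℕ) : sP (mk P f l q T1 T2) = P := by
  unfold sP mk
  rw [Nat.add_sub_cancel_left]
  simp only [Nat.unpair_pair]

theorem sf_mk (P f l q T1 T2 : ℕ) : sf (mk P f l q T1 T2) = f := by
  unfold sf mk
  rw [Nat.add_sub_cancel_left]
  simp only [Nat.unpair_pair]

theorem sl_mk (P f l q T1 T2 : ℕ) : sl (mk P f l q T1 T2) = l := by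
  unfold sl mk
  rw [Nat.add_sub_cancel_left]
  simp only [Nat.unpair_pair]

theorem sq_mk (P f l q T1 T2 : ℕ) : sq (mk P f l q T1 T2) = q := by
  unfold sq mk
  rw [Nat.add_sub_cancel_left]
  simp only [Nat.unpair_pair]

theorem s1_mk (P f l q T1 T2 : ℕ) : s1 (mk P f l q T1 T2) = T1 := by
  unfold s1 mk
  rw [Nat.add_sub_cancel_left]
  simp only [Nat.unpair_pair]

theorem s2_mk (P f l q T1 T2 : ℕ) : s2 (mk P f l q T1 T2) = T2 := by
  unfold s2 mk
  rw [Nat.add_sub_cancel_left]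
  simp only [Nat.unpair_pair]

/-- The number of a state. -/
def stn (P f l q T1 T2 : ℕ) : ℕ := accN q + 2 * mk P f l q T1 T2

theorem stn_div (P f l q T1 T2 : ℕ) : stn P f l q T1 T2 / 2 = mk P f l q T1 T2 := by
  have := accN_le q
  unfold stn
  omega

theorem stn_pos (P f l q T1 T2 : ℕ) : 1 < stn P f l q T1 T2 := by
  have := mk_pos P f l q T1 T2
  unfold stn
  omega

/-! ### Recursion over a constant number -/

/-- The first `i < k` with `g i = 0`, or `k`. -/
def fm (g : ℕ → ℕ) : ℕ → ℕ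
  | 0 => 0
  | k + 1 => ifz (k - fm g k) (ifz (g k) k (k + 1)) (fm g k)

/-- The product of the `g i`, `i < k`. -/
def pr (g : ℕ → ℕ) : ℕ → ℕ
  | 0 => 1
  | k + 1 => pr g k * g k

/-- The number of the word `⟨g 0⟩ ⟨g 1⟩ … ⟨g (k - 1)⟩`, where `g i` is the number of a word. -/
def nl (g : ℕ → ℕ) : ℕ → ℕ
  | 0 => 1
  | k + 1 => catN (nl g k) (sdN (g k))

variable (J : SC)

/-! ### The heads -/

/-- The number of the word `arr (⟨i⟩ q)`. -/
def us (P q i : ℕ) : ℕ := J.gU (pR P) (catN (sdN (bitsN i)) q)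

/-- The number of the word `pos (⟨i⟩ q)`. -/
def ps (P q i : ℕ) : ℕ := J.gP (pR P) (catN (sdN (bitsN i)) q)

/-- The number of the cell of the head `i`. -/
def cl (P q i : ℕ) : ℕ := bvalN (ps J P q i)

/-- The block of the head `i`. -/
def bn (P q i : ℕ) : ℕ := Nat.pair (us J P q i) (cl J P q i / pb P)

/-- The slot of the head `i` for its block. -/
def so (P q i : ℕ) : ℕ := 2 * i + cl J P q i / pb P % 2

/-- `1` if the block of the head `i` is all right. -/
def hk (P q i : ℕ) : ℕ := lt01 0 (us J P q i) * lt01 0 (ps J P q i) * lt01 (bn J P q i) (pR P)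

/-- `1` if the block of the head `i` is loaded. -/
def ld (P q T1 i : ℕ) : ℕ := eq01 (dig (pR P) T1 (so J P q i)) (bn J P q i)

/-- The first head whose block is not loaded, or the number of heads. -/
def ms (P q T1 : ℕ) : ℕ := fm (ld J P q T1) J.K

/-- The number of the address. -/
def ja (P q : ℕ) : ℕ := bvalN (J.gA (pR P) q)

/-- The digit of the cell of the head `i`. -/
def vd (P q T2 i : ℕ) : ℕ :=
  dig (pA P) (dig (pR P) T2 (so J P q i)) (cl J P q i % pb P)

/-- `1` if the content of the cell of the head `i` was never too long. -/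
def vk (P q T2 i : ℕ) : ℕ := lt01 (vd J P q T2 i) (pA P - 1)

/-- The number of the word which the function `next` gets. -/
def ip (P q T2 a b : ℕ) : ℕ :=
  catN (sdN q) (catN (lwN a) (catN (lwN b) (nl (fun i => vd J P q T2 i + 1) J.K)))

/-- The new digit of the cell `z` of the array with the number `U`, if `q` is the new state and `d` the
old digit. -/
def wc (P q U z d : ℕ) : ℕ :=
  ifz (pA P - 1 - d) (pA P - 1)
    (ifz (lt01 0 (J.gW (pR P) (catN (sdN q) (catN (sdN U) (catN (sdN (bitsN z)) (d + 1))))) *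
        lt01 (J.gW (pR P) (catN (sdN q) (catN (sdN U) (catN (sdN (bitsN z)) (d + 1))))) (pA P))
      (pA P - 1)
      (J.gW (pR P) (catN (sdN q) (catN (sdN U) (catN (sdN (bitsN z)) (d + 1)))) - 1))

/-- The number of the array of a block. -/
def mU (X : ℕ) : ℕ := ifz X.unpair.1 1 X.unpair.1

/-- The new table of the block `X`, if `q` is the new state and `V` the old table. -/
def nb (P q X V : ℕ) : ℕ := tab (pA P) (pb P) fun o =>
  wc J P q (mU X) (X.unpair.2 * pb P + o) (dig (pA P) V o)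

/-- The tables after the step. -/
def n2 (P q T1 T2 : ℕ) : ℕ := tab (pR P) (2 * J.K) fun j =>
  nb J P q (dig (pR P) T1 j) (dig (pR P) T2 j)

/-- The numbers `T` after the digit `s` was changed into `x`. -/
def cg (P T s x : ℕ) : ℕ := tab (pR P) (2 * J.K) fun j =>
  ifz (eq01 j s) (dig (pR P) T j) (x % pR P)

/-! ### The functions of the machine -/

/-- The state at the start. -/
def stN (P : ℕ) : ℕ := stn P 0 0 J.q0 0 0

/-- The next state in the phase `3`, `l` being the letter of `w`, `b` the letter of `y`, and `v` the number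
of the word which was read. -/
def nx3 (P l q T1 T2 b v : ℕ) : ℕ :=
  ifz (pr (hk J P q) J.K) 1
    (ifz (J.K - ms J P q T1)
      (ifz (pr (vk J P q T2) J.K) 1
        (ifz (J.gN (pR P) (ip J P q T2 (J.D.lt (pn P) (ja J P q) l) b)) 1
          (stn P 2 1 (J.gN (pR P) (ip J P q T2 (J.D.lt (pn P) (ja J P q) l) b)) T1
            (n2 J P (J.gN (pR P) (ip J P q T2 (J.D.lt (pn P) (ja J P q) l) b)) T1 T2))))
      (stn P 3 l q (cg J P T1 (so J P q (ms J P q T1)) (bn J P q (ms J P q T1)))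
        (cg J P T2 (so J P q (ms J P q T1)) (v - 1))))

/-- The next state; `a` and `b` are the numbers of the letters. -/
def nx (σ a b v : ℕ) : ℕ :=
  ifz (σ / 2) 1
    (ifz (sf (σ / 2))
      (ifz (lt01 0 (pb (sP (σ / 2))) * eq01 a 0) 1
        (stn (sP (σ / 2)) 1 0 (sq (σ / 2)) (s1 (σ / 2)) (s2 (σ / 2))))
      (ifz (sf (σ / 2) - 1)
        (ifz (eq01 (pn (sP (σ / 2))) 0 + a) 1
          (stn (sP (σ / 2)) 2 0 (sq (σ / 2)) (s1 (σ / 2)) (s2 (σ / 2))))
        (ifz (sf (σ / 2) - 2)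
          (ifz (J.gA (pR (sP (σ / 2))) (sq (σ / 2))) 1
            (stn (sP (σ / 2)) 3 a (sq (σ / 2)) (s1 (σ / 2)) (s2 (σ / 2))))
          (nx3 J (sP (σ / 2)) (sl (σ / 2)) (sq (σ / 2)) (s1 (σ / 2)) (s2 (σ / 2)) b v))))

/-- The number of the address. -/
def adN (σ : ℕ) : ℕ :=
  ifz (sf (σ / 2)) (pn (sP (σ / 2)))
    (ifz (sf (σ / 2) - 1) (pn (sP (σ / 2)) - 1)
      (ifz (sf (σ / 2) - 2) (J.D.pos (pn (sP (σ / 2))) (ja J (sP (σ / 2)) (sq (σ / 2))))
        (ja J (sP (σ / 2)) (sq (σ / 2)))))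

/-- The number of the name of the block which is read. -/
def blN (σ : ℕ) : ℕ :=
  ifz (sf (σ / 2) - 2) 1
    (ifz (J.K - ms J (sP (σ / 2)) (sq (σ / 2)) (s1 (σ / 2))) 1
      (3 + 2 * bn J (sP (σ / 2)) (sq (σ / 2)) (ms J (sP (σ / 2)) (sq (σ / 2)) (s1 (σ / 2)))))

/-- The new content of the block with the name `x`, `c` being the old content. -/
def wrN (σ x c : ℕ) : ℕ :=
  ifz (σ / 2) c (ifz (x % 2 * lt01 1 x) c
    (ifz (eq01 (sf (σ / 2)) 2 * sl (σ / 2)) c
      (nb J (sP (σ / 2)) (sq (σ / 2)) ((x - 3) / 2) (c - 1) + 1)))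

end Pool.Agent.Helper31.SB
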