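import Pool.Agent.Helper31.SB.Mach

/-!
# Machines with reading heads as machines with blocks: the contents of the blocks
-/

namespace Pool.Agent.Helper31.SB

open Pool.Agent.Helper65.LinSpace Pool.Agent.Helper78.Mpc Pool.Agent.Helper28.Ram Finset
open Pool.Agent.Helper92.RE (LD)
open Pool.Agent.Helper65.OH (letW)
open Pool.Agent.Helper65.BR (bvalN lwN BM Reader)
open Pool.Agent.Helper81.RP (wd wf num_wd wd_num hd tl ls_hd ls_tl hd_eq tl_eq ls_pair linComp_wf
  lett lt01_of wd_inj wd_one head_wd)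
open Pool.Agent.Helper31.Conv (bits_wd wd_pred lt01_not eq01_not eq01_self)
open Pool.Agent.Helper31.TMS (bval_bits)

theorem lt01_ne {a b : ℕ} : lt01 a b ≠ 0 ↔ a < b := by
  constructor
  · intro h
    by_contra h1
    exact h (lt01_not h1)
  · intro h
    rw [lt01_of h]
    exact one_ne_zero

theorem eq01_ne {a b : ℕ} : eq01 a b ≠ 0 ↔ a = b := by
  constructor
  · intro h
    by_contra h1
    exact h (eq01_not h1)
  · intro h
    rw [h, eq01_self]
    exact one_ne_zero

variable (J : SC) {K : ℕ} (A : Reader K) (x y : List Bool)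

/-- The digit of the cell `z` of the array with the number `U` at the time `t`. -/
def dg (P : ℕ) : ℕ → ℕ → ℕ → ℕ
  | 0, _, _ => 0
  | t + 1, U, z => wc J P (num (A.conf x y (t + 1)).1) U z (dg P t U z)

theorem dg_lt (P t U z : ℕ) : dg J A x y P t U z < pA P := by
  rcases t with _ | t
  · exact pA_pos P
  · exact wc_lt J _ _ _ _ _

variable {J A}

theorem gW_eq (hC : Cd J A) (P : ℕ) (q u : List Bool) (z : ℕ) (c : List Bool) :
    J.gW (pR P) (catN (sdN (num q)) (catN (sdN (num u)) (catN (sdN (bitsN z)) (num c)))) =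
      if (A.write (sd q ++ (sd u ++ (sd z.bits ++ c)))).length ≤ Nat.log 2 (pR P) then
        num (A.write (sd q ++ (sd u ++ (sd z.bits ++ c)))) else 0 := by
  rw [sdN_num, sdN_num, bitsN_eq, sdN_num, catN_num, catN_num, catN_num, hC.gW]

/-- Digits which are not the largest one code the contents. -/
theorem dg_ok (hC : Cd J A) {P t : ℕ} {u : List Bool} {z : ℕ}
    (h : dg J A x y P t (num u) z < pA P - 1) :
    dg J A x y P t (num u) z + 1 = num ((A.conf x y t).2 u z) := by
  induction t with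
  | zero => rfl
  | succ t ih =>
    change wc J P (num (A.conf x y (t + 1)).1) (num u) z (dg J A x y P t (num u) z) < _ at h
    show wc J P (num (A.conf x y (t + 1)).1) (num u) z (dg J A x y P t (num u) z) + 1 = _
    have h1 : dg J A x y P t (num u) z < pA P - 1 := by
      by_contra h2
      unfold wc at h
      rw [show pA P - 1 - dg J A x y P t (num u) z = 0 by omega, ifz_zero] at h
      omega
    unfold wc at h ⊢
    rw [ih h1, gW_eq hC, ifz_ne (by omega)] at h ⊢
    have h3 : (A.conf x y (t + 1)).2 u z = A.write (sd (A.conf x y (t + 1)).1 ++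
        (sd u ++ (sd z.bits ++ (A.conf x y t).2 u z))) := rfl
    rw [← h3] at h ⊢
    split_ifs at h ⊢ with h4
    · by_cases h5 : num ((A.conf x y (t + 1)).2 u z) < pA P
      · rw [lt01_of (num_pos _), lt01_of h5, ifz_ne (show 1 * 1 ≠ 0 by norm_num)]
        have := num_pos ((A.conf x y (t + 1)).2 u z)
        omega
      · rw [lt01_not h5, mul_zero, ifz_zero] at h
        omega
    · rw [lt01_not (lt_irrefl 0), zero_mul, ifz_zero] at h
      omega

/-- The digits of contents which are never too long. -/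
theorem dg_fit (hC : Cd J A) {P : ℕ} {u : List Bool} {z a r : ℕ} (ha : a + 1 ≤ pk P)
    (h : ∀ t ≤ r, ((A.conf x y t).2 u z).length ≤ a) {t : ℕ} (ht : t ≤ r) :
    dg J A x y P t (num u) z < pA P - 1 := by
  have hk : pk P ≤ Nat.log 2 (pR P) := min_le_right _ _
  have hA : 2 ^ (a + 1) ≤ pA P := Nat.pow_le_pow_right (by norm_num) ha
  have h2 : 2 ≤ 2 ^ (a + 1) := by
    rw [pow_succ]
    have : 0 < 2 ^ a := by positivity
    omega
  induction t with
  | zero =>
    show 0 < pA P - 1
    omega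
  | succ t ih =>
    have h1 := ih (by omega)
    have h3 := dg_ok x y hC h1
    show wc J P (num (A.conf x y (t + 1)).1) (num u) z (dg J A x y P t (num u) z) < _
    have h4 : (A.conf x y (t + 1)).2 u z = A.write (sd (A.conf x y (t + 1)).1 ++
        (sd u ++ (sd z.bits ++ (A.conf x y t).2 u z))) := rfl
    have h5 := h (t + 1) ht
    have h6 := num_lt ((A.conf x y (t + 1)).2 u z)
    have h7 : 2 ^ (((A.conf x y (t + 1)).2 u z).length + 1) ≤ 2 ^ (a + 1) :=
      Nat.pow_le_pow_right (by norm_num) (by omega)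
    have h8 := num_pos ((A.conf x y (t + 1)).2 u z)
    unfold wc
    rw [h3, gW_eq hC, ← h4, if_pos (by omega), ifz_ne (by omega), lt01_of h8,
      lt01_of (by omega), ifz_ne (by norm_num)]
    omega

variable (J A)

/-- The table of the block `X` at the time `t`. -/
def tb (P t X : ℕ) : ℕ := tab (pA P) (pb P) fun o =>
  dg J A x y P t (mU X) (X.unpair.2 * pb P + o)

theorem tb_lt' (P t X : ℕ) : tb J A x y P t X < pA P ^ pb P :=
  tab_lt fun _ _ => dg_lt J A x y _ _ _ _

theorem tb_lt (P t X : ℕ) : tb J A x y P t X < pR P :=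
  (tb_lt' J A x y P t X).trans_le (pA_pb P)

theorem tb_zero (P X : ℕ) : tb J A x y P 0 X = 0 := by
  unfold tb tab
  refine sum_eq_zero fun o _ => ?_
  show 0 * _ = 0
  rw [zero_mul]

theorem tb_dig {P t X o : ℕ} (ho : o < pb P) : dig (pA P) (tb J A x y P t X) o =
    dg J A x y P t (mU X) (X.unpair.2 * pb P + o) :=
  dig_tab (fun _ _ => dg_lt J A x y _ _ _ _) ho

theorem nb_tb (P t X : ℕ) : nb J P (num (A.conf x y (t + 1)).1) X (tb J A x y P t X) =
    tb J A x y P (t + 1) X := by
  unfold nb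
  conv_rhs => unfold tb
  refine tab_congr fun o ho => ?_
  rw [tb_dig J A x y ho]
  rfl

/-- The slots contain the tables of blocks. -/
structure Slots (P t T1 T2 : ℕ) : Prop where
  d2 : ∀ j < 2 * J.K, dig (pR P) T2 j = tb J A x y P t (dig (pR P) T1 j)
  l1 : T1 < pR P ^ (2 * J.K)
  l2 : T2 < pR P ^ (2 * J.K)

/-- The name of the block `X`. -/
noncomputable def nm (X : ℕ) : List Bool := wd (3 + 2 * X)

/-- The memory contains the tables of all blocks. -/
structure Mem (P t : ℕ) (M : List Bool → List Bool) : Prop where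
  me : ∀ X, M (nm X) = wd (tb J A x y P t X + 1)
  mo : ∀ u, (¬∃ X, u = nm X) → M u = []

theorem num_nm (X : ℕ) : num (nm X) = 3 + 2 * X := num_wd (by omega)

theorem nm_of {u : List Bool} (h1 : num u % 2 = 1) (h2 : 1 < num u) : ∃ X, u = nm X := by
  refine ⟨(num u - 3) / 2, ?_⟩
  apply Pool.Agent.Helper78.Avg.num_injective
  rw [num_nm]
  omega

theorem dig_cg {P T s v j : ℕ} (hj : j < 2 * J.K) (hv : v < pR P) :
    dig (pR P) (cg J P T s v) j = if j = s then v else dig (pR P) T j := by
  unfold cg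
  rw [dig_tab (fun i _ => ifz_lt (dig_lt (pR_pos _) _ _) (Nat.mod_lt _ (pR_pos _))) hj]
  by_cases h : j = s
  · rw [if_pos h, h, eq01_self, ifz_ne one_ne_zero, Nat.mod_eq_of_lt hv]
  · rw [if_neg h, eq01_not h, ifz_zero]

theorem cg_lt (P T s v : ℕ) : cg J P T s v < pR P ^ (2 * J.K) :=
  tab_lt fun _ _ => ifz_lt (dig_lt (pR_pos _) _ _) (Nat.mod_lt _ (pR_pos _))

theorem dig_zero (R j : ℕ) : dig R 0 j = 0 := by
  unfold dig
  rw [Nat.zero_div, Nat.zero_mod]

theorem slots_zero (P : ℕ) : Slots J A x y P 0 0 0 where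
  d2 j _ := by
    rw [tb_zero, dig_zero]
  l1 := Nat.pow_pos (pR_pos P)
  l2 := Nat.pow_pos (pR_pos P)

theorem mem_zero (P : ℕ) : Mem J A x y P 0 fun _ => [] where
  me X := by rw [tb_zero, wd_one]
  mo _ _ := rfl

/-- The new contents of the blocks. -/
noncomputable def nM (σ : ℕ) (M : List Bool → List Bool) : List Bool → List Bool :=
  fun u => wd (wrN J σ (num u) (num (M u)))

theorem mem_same {P f l q T1 T2 : ℕ} {M : List Bool → List Bool} (h : f = 2 → l = 0) :
    nM J (stn P f l q T1 T2) M = M := by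
  funext u
  unfold nM wrN
  rw [stn_div, ifz_ne (mk_pos _ _ _ _ _ _).ne', sf_mk, sl_mk]
  have h1 : eq01 f 2 * l = 0 := by
    by_cases h2 : f = 2
    · rw [h h2, mul_zero]
    · rw [eq01_not h2, zero_mul]
  rw [h1, ifz_zero]
  unfold ifz
  split_ifs
  · exact wd_num _
  · exact wd_num _

theorem mem_step {P t T1 T2 : ℕ} {M : List Bool → List Bool} (hM : Mem J A x y P t M) :
    Mem J A x y P (t + 1) (nM J (stn P 2 1 (num (A.conf x y (t + 1)).1) T1 T2) M) where
  me X := by
    unfold nM wrN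
    rw [stn_div, ifz_ne (mk_pos _ _ _ _ _ _).ne', num_nm, hM.me, num_wd (by omega), sf_mk, sl_mk,
      sP_mk, sq_mk, show (3 + 2 * X) % 2 = 1 by omega, lt01_of (by omega), ifz_ne (by norm_num),
      eq01_self, ifz_ne (by norm_num), show (3 + 2 * X - 3) / 2 = X by omega,
      Nat.add_sub_cancel, nb_tb]
  mo u hu := by
    unfold nM wrN
    rw [stn_div, ifz_ne (mk_pos _ _ _ _ _ _).ne', hM.mo u hu]
    have h1 : num u % 2 * lt01 1 (num u) = 0 := by
      by_contra h2
      rw [← Ne, mul_ne_zero_iff, lt01_ne] at h2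
      exact hu (nm_of (by omega) h2.2)
    rw [h1, ifz_zero]
    exact wd_num []

theorem slots_step {P t T1 T2 : ℕ} (hS : Slots J A x y P t T1 T2) :
    Slots J A x y P (t + 1) T1 (n2 J P (num (A.conf x y (t + 1)).1) T1 T2) where
  d2 j hj := by
    unfold n2
    rw [dig_tab (fun j _ => nb_lt J _ _ _ _) hj, hS.d2 j hj, nb_tb]
  l1 := hS.l1
  l2 := tab_lt fun _ _ => nb_lt J _ _ _ _

/-- A block is loaded. -/
theorem slots_load {P t T1 T2 s X : ℕ} (hS : Slots J A x y P t T1 T2) (hX : X < pR P) :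
    Slots J A x y P t (cg J P T1 s X) (cg J P T2 s (tb J A x y P t X)) where
  d2 j hj := by
    rw [dig_cg J hj (tb_lt J A x y P t X), dig_cg J hj hX]
    by_cases h : j = s
    · rw [if_pos h, if_pos h]
    · rw [if_neg h, if_neg h]
      exact hS.d2 j hj
  l1 := cg_lt J _ _ _ _
  l2 := cg_lt J _ _ _ _

end Pool.Agent.Helper31.SB
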