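import Pool.Agent.Helper31.SB.Conf

/-!
# Machines with reading heads as machines with blocks: soundness
-/

namespace Pool.Agent.Helper31.SB

open Pool.Agent.Helper65.LinSpace Pool.Agent.Helper78.Mpc Pool.Agent.Helper28.Ram Finset
open Pool.Agent.Helper92.RE (LD)
open Pool.Agent.Helper65.OH (letW)
open Pool.Agent.Helper65.BR (bvalN lwN BM Reader)
open Pool.Agent.Helper81.RP (wd wf num_wd wd_num hd tl ls_hd ls_tl hd_eq tl_eq ls_pair linComp_wf
  lett lt01_of wd_inj wd_one head_wd)
open Pool.Agent.Helper31.Conv (bits_wd wd_pred lt01_not eq01_not eq01_self)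
open Pool.Agent.Helper31.TMS (bval_bits)

variable {J : SC} {K : ℕ} {A : Reader K} {x w y : List Bool}
  {c : List Bool × (List Bool → List Bool)} {P t l T1 T2 : ℕ}

variable (J) in
/-- The letters of `x` are computed from the letters of `w`. -/
def Let (x w : List Bool) : Prop :=
  ∀ u, lett x[u]? = J.D.lt w.length u (lett w[J.D.pos w.length u]?)

/-- All blocks are loaded. -/
theorem all_ld (hm : ms J P (num (A.conf x y t).1) T1 = J.K) : ∀ i < J.K,
    dig (pR P) T1 (so J P (num (A.conf x y t).1) i) = bn J P (num (A.conf x y t).1) i := by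
  intro i hi
  rw [← ld_ne]
  have h := (fm_spec (ld J P (num (A.conf x y t).1) T1) J.K).1
  unfold ms at hm
  rw [hm] at h
  exact h i hi

theorem letter (hL : Let J x w) (hA : At J A x w y c P t 3 l T1 T2) :
    J.D.lt (pn P) (ja J P (num (A.conf x y t).1)) l =
      codeO x[ja J P (num (A.conf x y t).1)]? := by
  have h1 := hL (ja J P (num (A.conf x y t).1))
  rw [hA.ph.f2 (by omega), lett_code, lett_code, ← (hA.ph.f3' rfl).1] at h1
  exact h1.symm

/-- The words which the heads read. -/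
def rd (A : Reader K) (x y : List Bool) (t : ℕ) (i : Fin K) : List Bool :=
  (A.conf x y t).2 (A.cell (A.conf x y t).1 i).1 (A.cell (A.conf x y t).1 i).2

theorem so_lt {i q : ℕ} (hi : i < J.K) : so J P q i < 2 * J.K := by
  unfold so
  omega

/-- The digit of the cell of the head. -/
theorem vd_eq (hC : Cd J A) (hS : Slots J A x y P t T1 T2) (hb : 0 < pb P) {i : Fin K}
    (hp : hk J P (num (A.conf x y t).1) i ≠ 0)
    (hl : dig (pR P) T1 (so J P (num (A.conf x y t).1) i) = bn J P (num (A.conf x y t).1) i) :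
    vd J P (num (A.conf x y t).1) T2 i = dg J A x y P t
      (num (A.cell (A.conf x y t).1 i).1) (A.cell (A.conf x y t).1 i).2 := by
  rw [hk_ne] at hp
  have hi : (i : ℕ) < J.K := by
    rw [hC.hK]
    exact i.2
  have e1 := cl_num hC hp.2.1
  have e2 := us_cell hC hp.1
  have e3 : mU (bn J P (num (A.conf x y t).1) i) = num (A.cell (A.conf x y t).1 i).1 := by
    unfold mU bn
    rw [Nat.unpair_pair]
    show ifz (us J P (num (A.conf x y t).1) i) 1 (us J P (num (A.conf x y t).1) i) = _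
    rw [ifz_ne hp.1, e2]
  have e4 : (bn J P (num (A.conf x y t).1) i).unpair.2 * pb P +
      cl J P (num (A.conf x y t).1) i % pb P = (A.cell (A.conf x y t).1 i).2 := by
    unfold bn
    rw [Nat.unpair_pair, e1]
    show (A.cell (A.conf x y t).1 i).2 / pb P * pb P + _ = _
    rw [mul_comm]
    exact Nat.div_add_mod _ _
  unfold vd
  rw [hS.d2 _ (so_lt hi), hl, tb_dig J A x y (Nat.mod_lt _ hb), e3, e4]

theorem vk_ne {q i : ℕ} : vk J P q T2 i ≠ 0 ↔ vd J P q T2 i < pA P - 1 := by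
  unfold vk
  exact lt01_ne

/-- The argument of the function `next`. -/
theorem ip_eq (hC : Cd J A) (hS : Slots J A x y P t T1 T2) (hb : 0 < pb P)
    (hp : ∀ i < J.K, hk J P (num (A.conf x y t).1) i ≠ 0)
    (hl : ∀ i < J.K, dig (pR P) T1 (so J P (num (A.conf x y t).1) i) =
      bn J P (num (A.conf x y t).1) i)
    (hv : ∀ i < J.K, vk J P (num (A.conf x y t).1) T2 i ≠ 0)
    (hA : J.gA (pR P) (num (A.conf x y t).1) ≠ 0) :
    ip J P (num (A.conf x y t).1) T2 (codeO x[ja J P (num (A.conf x y t).1)]?)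
      (codeO y[ja J P (num (A.conf x y t).1)]?) =
      num (A.inp x y (A.conf x y t).1 (rd A x y t)) := by
  have h1 : ja J P (num (A.conf x y t).1) = bval (A.addr (A.conf x y t).1) := by
    unfold ja
    rw [hC.gA] at hA ⊢
    split_ifs at hA ⊢ with h2
    · rw [bvalN_num]
    · exact absurd rfl hA
  rw [h1]
  unfold ip
  rw [lwN_code, lwN_code, nl_eq (v := fun i => if h : i < K then rd A x y t ⟨i, h⟩ else [])
    (fun i hi => by
      have hi' : i < K := by
        rw [← hC.hK]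
        exact hi
      simp only [dif_pos hi']
      have h2 := vd_eq hC hS hb (i := ⟨i, hi'⟩) (hp i hi) (hl i hi)
      have h3 := vk_ne.1 (hv i hi)
      simp only at h2
      rw [h2] at h3 ⊢
      exact dg_ok x y hC h3), sdN_num, catN_num, catN_num, catN_num]
  congr 1
  show _ = sd (A.conf x y t).1 ++ (letW x[bval (A.addr (A.conf x y t).1)]? ++
    (letW y[bval (A.addr (A.conf x y t).1)]? ++
      (List.finRange K).flatMap fun i => sd (rd A x y t i)))
  rw [hC.hK, flatMap_fin (fun i => sd (rd A x y t i)) _ fun i => by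
    simp only [dif_pos i.2]]

/-- The next state if all blocks are loaded. -/
theorem nx3_sim (hC : Cd J A) (hL : Let J x w) (hA : At J A x w y c P t 3 l T1 T2)
    (hp : ∀ i < J.K, hk J P (num (A.conf x y t).1) i ≠ 0)
    (hm : ms J P (num (A.conf x y t).1) T1 = J.K)
    (hv : ∀ i < J.K, vk J P (num (A.conf x y t).1) T2 i ≠ 0) (v : ℕ) :
    nx3 J P l (num (A.conf x y t).1) T1 T2 (codeO y[ja J P (num (A.conf x y t).1)]?) v =
      ifz (J.gN (pR P) (num (A.inp x y (A.conf x y t).1 (rd A x y t)))) 1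
        (stn P 2 1 (J.gN (pR P) (num (A.inp x y (A.conf x y t).1 (rd A x y t)))) T1
          (n2 J P (J.gN (pR P) (num (A.inp x y (A.conf x y t).1 (rd A x y t)))) T1 T2)) := by
  have h1 := ip_eq hC hA.sl (hA.ph.f1 (by omega)).1 hp (all_ld hm) hv (hA.ph.f3' rfl).2
  unfold nx3
  rw [ifz_ne (pr_ne.2 hp), hm, Nat.sub_self, ifz_zero, ifz_ne (pr_ne.2 hv), letter hL hA, h1]

theorem nx3_flag {v b : ℕ}
    (hp : ∀ i < J.K, hk J P (num (A.conf x y t).1) i ≠ 0)
    (hm : ms J P (num (A.conf x y t).1) T1 = J.K)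
    (hv : ¬∀ i < J.K, vk J P (num (A.conf x y t).1) T2 i ≠ 0) :
    nx3 J P l (num (A.conf x y t).1) T1 T2 b v = 1 := by
  have h1 : pr (vk J P (num (A.conf x y t).1) T2) J.K = 0 := by
    by_contra h2
    exact hv (pr_ne.1 h2)
  unfold nx3
  rw [ifz_ne (pr_ne.2 hp), hm, Nat.sub_self, ifz_zero, h1, ifz_zero]

/-- Phase `3`, the given machine makes a step. -/
theorem at_sim (hC : Cd J A) (hL : Let J x w) (hA : At J A x w y c P t 3 l T1 T2)
    (hp : ∀ i < J.K, hk J P (num (A.conf x y t).1) i ≠ 0)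
    (hm : ms J P (num (A.conf x y t).1) T1 = J.K)
    (hv : ∀ i < J.K, vk J P (num (A.conf x y t).1) T2 i ≠ 0)
    (hN : J.gN (pR P) (num (A.inp x y (A.conf x y t).1 (rd A x y t))) ≠ 0) :
    At J A x w y ((bm J).step w y c) P (t + 1) 2 1 T1
      (n2 J P (num (A.conf x y (t + 1)).1) T1 T2) := by
  have hq : J.gN (pR P) (num (A.inp x y (A.conf x y t).1 (rd A x y t))) =
      num (A.conf x y (t + 1)).1 := by
    rw [hC.gN] at hN ⊢
    split_ifs at hN ⊢ with h1
    · rfl
    · exact absurd rfl hN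
  have h1 : nx J (stn P 3 l (num (A.conf x y t).1) T1 T2)
      (codeO w[adN J (stn P 3 l (num (A.conf x y t).1) T1 T2)]?)
      (codeO y[adN J (stn P 3 l (num (A.conf x y t).1) T1 T2)]?)
      (num ((bm J).get c.1 c.2)) = stn P 2 1 (num (A.conf x y (t + 1)).1) T1
        (n2 J P (num (A.conf x y (t + 1)).1) T1 T2) := by
    rw [nx_3, adN_3, nx3_sim hC hL hA hp hm hv, ifz_ne hN, hq]
  rw [step_eq J w y (stn_pos' _ _ _ _ _ _) hA.st, h1]
  refine ⟨rfl, slots_step J A x y hA.sl, mem_step J A x y hA.me, ?_⟩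
  exact ⟨by omega, fun h => absurd h (by omega), fun _ => hA.ph.f1 (by omega),
    fun _ => hA.ph.f2 (by omega), fun h => absurd h (by omega), by omega⟩

/-- Phase `3`. -/
theorem at_3 (hC : Cd J A) (hL : Let J x w) (hA : At J A x w y c P t 3 l T1 T2) :
    ((bm J).step w y c).1 = wd 1 ∨ ∃ t' f' l' T1' T2',
      At J A x w y ((bm J).step w y c) P t' f' l' T1' T2' := by
  have e1 : ∀ v : ℕ, nx J (stn P 3 l (num (A.conf x y t).1) T1 T2)
      (codeO w[adN J (stn P 3 l (num (A.conf x y t).1) T1 T2)]?)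
      (codeO y[adN J (stn P 3 l (num (A.conf x y t).1) T1 T2)]?) v =
      nx3 J P l (num (A.conf x y t).1) T1 T2 (codeO y[ja J P (num (A.conf x y t).1)]?) v := by
    intro v
    rw [nx_3, adN_3]
  by_cases hp : ∀ i < J.K, hk J P (num (A.conf x y t).1) i ≠ 0
  · rcases (fm_le (ld J P (num (A.conf x y t).1) T1) J.K).lt_or_eq with hm | hm
    · exact Or.inr ⟨_, _, _, _, _, at_load J hA hp hm⟩
    · by_cases hv : ∀ i < J.K, vk J P (num (A.conf x y t).1) T2 i ≠ 0
      · by_cases hN : J.gN (pR P) (num (A.inp x y (A.conf x y t).1 (rd A x y t))) = 0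
        · refine Or.inl (dead_of J hA ?_)
          rw [e1, nx3_sim hC hL hA hp hm hv, hN, ifz_zero]
        · exact Or.inr ⟨_, _, _, _, _, at_sim hC hL hA hp hm hv hN⟩
      · refine Or.inl (dead_of J hA ?_)
        rw [e1, nx3_flag hp hm hv]
  · refine Or.inl (dead_of J hA ?_)
    rw [e1, nx3_dead J hp]

/-- One step of the machine with blocks. -/
theorem at_step {f : ℕ} (hC : Cd J A) (hL : Let J x w) (hA : At J A x w y c P t f l T1 T2) :
    ((bm J).step w y c).1 = wd 1 ∨ ∃ t' f' l' T1' T2',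
      At J A x w y ((bm J).step w y c) P t' f' l' T1' T2' := by
  have h1 := hA.ph.f3
  rcases (show f = 0 ∨ f = 1 ∨ f = 2 ∨ f = 3 by omega) with rfl | rfl | rfl | rfl
  · rcases at_0 J hA with ⟨_, h⟩ | ⟨_, h⟩
    · exact Or.inr ⟨_, _, _, _, _, h⟩
    · exact Or.inl h
  · rcases at_1 J hA with ⟨_, h⟩ | ⟨_, h⟩
    · exact Or.inr ⟨_, _, _, _, _, h⟩
    · exact Or.inl h
  · rcases at_2 J hA with ⟨_, h⟩ | ⟨_, h⟩
    · exact Or.inr ⟨_, _, _, _, _, h⟩
    · exact Or.inl h
  · exact at_3 hC hL hA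

variable (J) in
theorem dead_step (h : c.1 = wd 1) : ((bm J).step w y c).1 = wd 1 := by
  rw [step_eq J w y Nat.one_pos h]
  unfold nx
  rw [show 1 / 2 = 0 from rfl, ifz_zero]

theorem at_all (hC : Cd J A) (hL : Let J x w) (p : List Bool) (τ : ℕ) :
    ((bm J).conf w y p τ).1 = wd 1 ∨ ∃ t f l T1 T2,
      At J A x w y ((bm J).conf w y p τ) (num p) t f l T1 T2 := by
  induction τ with
  | zero => exact Or.inr ⟨_, _, _, _, _, start_at J A x w y p hC.q0⟩
  | succ τ ih =>
    rcases ih with h | ⟨t, f, l, T1, T2, h⟩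
    · exact Or.inl (dead_step J h)
    · exact at_step hC hL h

theorem head_stn {P f l T1 T2 : ℕ} {u : List Bool} :
    (wd (stn P f l (num u) T1 T2)).head? = some true ↔ u.head? = some true := by
  rw [head_wd (stn_pos' _ _ _ _ _ _), ← accN_num]
  have h1 := accN_le (num u)
  have h2 := stn_pos P f l (num u) T1 T2
  unfold stn at h2 ⊢
  omega

/-- **Soundness.** -/
theorem sound (hC : Cd J A) (hL : Let J x w) {p : List Bool} {τ : ℕ}
    (h : (bm J).AcceptsAt w y p τ) : ∃ t, A.AcceptsAt x y t := by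
  unfold BM.AcceptsAt at h
  rcases at_all (y := y) hC hL p τ with h1 | ⟨t, f, l, T1, T2, h1⟩
  · rw [h1, wd_one] at h
    simp at h
  · rw [h1.st, head_stn] at h
    exact ⟨t, h⟩

end Pool.Agent.Helper31.SB
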